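import Mathlib

/-!
# Harish-Chandra modules and `G`-continuous norms for `G = SL(2, ℝ)^r`
-/

open Filter Topology

namespace Q4.HC

/-- The real reductive group `G = SL(2, ℝ)^r`. Its maximal compact subgroup is `K = SO(2)^r`. -/
abbrev G (r : ℕ) : Type := Fin r → Matrix.SpecialLinearGroup (Fin 2) ℝ

/-- The data of an action of the Lie algebra `𝔤 = sl(2, ℝ)^r` on `V`: the operators by which the
elements `h = [[1,0],[0,-1]]`, `e = [[0,1],[0,0]]`, `f = [[0,0],[1,0]]` of the `i`-th factor act. -/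
structure Ops (r : ℕ) (V : Type) : Type where
  h : Fin r → V → V
  e : Fin r → V → V
  f : Fin r → V → V

variable {r : ℕ} {V : Type} [AddCommGroup V] [Module ℂ V]

/-- The action of `X = (X₁, …, X_r) ∈ 𝔤`. -/
def Ops.act (D : Ops r V) (X : Fin r → Matrix (Fin 2) (Fin 2) ℝ) (v : V) : V :=
  ∑ i, (((X i 0 0 : ℝ) : ℂ) • D.h i v + ((X i 0 1 : ℝ) : ℂ) • D.e i v +
    ((X i 1 0 : ℝ) : ℂ) • D.f i v)

/-- The operators define a complex linear representation of the Lie algebra `𝔤`. -/
structure Ops.IsLieAction (D : Ops r V) : Prop where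
  lin_h : ∀ i, IsLinearMap ℂ (D.h i)
  lin_e : ∀ i, IsLinearMap ℂ (D.e i)
  lin_f : ∀ i, IsLinearMap ℂ (D.f i)
  he : ∀ i v, D.h i (D.e i v) - D.e i (D.h i v) = (2 : ℂ) • D.e i v
  hf : ∀ i v, D.h i (D.f i v) - D.f i (D.h i v) = (-2 : ℂ) • D.f i v
  ef : ∀ i v, D.e i (D.f i v) - D.f i (D.e i v) = D.h i v
  comm : ∀ i j, i ≠ j → ∀ v, D.h i (D.h j v) = D.h j (D.h i v) ∧
    D.h i (D.e j v) = D.e j (D.h i v) ∧ D.h i (D.f j v) = D.f j (D.h i v) ∧
    D.e i (D.e j v) = D.e j (D.e i v) ∧ D.e i (D.f j v) = D.f j (D.e i v) ∧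
    D.f i (D.f j v) = D.f j (D.f i v)

/-- `v` lies in the `K`-isotypic component of the character
`(R_{θ₁}, …, R_{θ_r}) ↦ exp (i (k₁ θ₁ + … + k_r θ_r))` of `K = SO(2)^r`: the generator
`f - e = [[0,-1],[1,0]]` of the `i`-th rotation group acts by `i k_i`. -/
def Ops.IsWeight (D : Ops r V) (k : Fin r → ℤ) (v : V) : Prop :=
  ∀ i, D.f i v - D.e i v = ((k i : ℂ) * Complex.I) • v

/-- Harish-Chandra modules: `(𝔤, K)`-modules (the Lie algebra of `K` acts diagonally through
characters of the torus `K`) which are admissible and finitely generated. -/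
structure Ops.IsHarishChandra (D : Ops r V) : Prop extends D.IsLieAction where
  span : Submodule.span ℂ {v : V | ∃ k, D.IsWeight k v} = ⊤
  admissible : ∀ k, FiniteDimensional ℂ (Submodule.span ℂ {v : V | D.IsWeight k v})
  fin_gen : ∃ S : Finset V, ∀ W : Submodule ℂ V, (∀ v ∈ S, v ∈ W) →
    (∀ i, ∀ v ∈ W, D.h i v ∈ W ∧ D.e i v ∈ W ∧ D.f i v ∈ W) → W = ⊤

/-- `(E, π, j)` is a continuous representation of `G` on a Banach space `E` in which `V` is embedded
as a dense subspace of (`K`-finite) smooth vectors with the given action of `𝔤`, such that the norm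
of `E` restricts to `p`: the derivative at `0` of the orbit map of a vector of `V` along any
one-parameter subgroup of `G` with generator `X` is given by the action of `X` on `V`. -/
structure IsGlobalization (D : Ops r V) (p : V → ℝ) {E : Type} [NormedAddCommGroup E]
    [NormedSpace ℂ E] (π : G r →* (E →L[ℂ] E)) (j : V →ₗ[ℂ] E) : Prop where
  inj : Function.Injective j
  norm_eq : ∀ v, ‖j v‖ = p v
  dense : DenseRange j
  cont : ∀ x, Continuous fun g => π g x
  deriv : ∀ (X : Fin r → Matrix (Fin 2) (Fin 2) ℝ) (γ : ℝ → G r),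
    (∀ s t, γ (s + t) = γ s * γ t) → (∀ i a b, HasDerivAt (fun t => γ t i a b) (X i a b) 0) →
      ∀ v, HasDerivAt (fun t => π (γ t) (j v)) (j (D.act X v)) 0

/-- `p` is a `G`-continuous norm on `V`: the completion of `V` for `p` carries a continuous
representation of `G` extending the action of `𝔤` and `K` on `V`. -/
def IsGContinuous (D : Ops r V) (p : V → ℝ) : Prop :=
  ∃ (E : Type) (_ : NormedAddCommGroup E) (_ : NormedSpace ℂ E) (_ : CompleteSpace E)
    (π : G r →* (E →L[ℂ] E)) (j : V →ₗ[ℂ] E), IsGlobalization D p π j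

/-- `T` is the Sobolev operator `D_s` (for the invariant form with `|λ|² = c (k₁² + … + k_r²)` for
the character `λ = (k₁, …, k_r)` of `K`; the Killing form has `c = 1 / 8`): it is linear and acts
on the isotypic component of `k` by `(1 + c (k₁² + … + k_r²)) ^ (s / 2)`. -/
def IsSobolev (D : Ops r V) (c s : ℝ) (T : V →ₗ[ℂ] V) : Prop :=
  ∀ (k : Fin r → ℤ) (v : V), D.IsWeight k v →
    T v = (((1 + c * ∑ i, (k i : ℝ) ^ 2) ^ (s / 2) : ℝ) : ℂ) • v

end Q4.HC
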