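import Pool.Agent.Q4.HC.NotCont

/-!
# The Sobolev norm of order two of the supremum norm is not `G`-continuous: conclusion
-/

open Filter Topology ComplexConjugate

namespace Q4.HC

variable {E : Type} [NormedAddCommGroup E] [NormedSpace ℂ E]
  {p : V 2 → ℝ} {π : G 2 →* (E →L[ℂ] E)} {j : V 2 →ₗ[ℂ] E}

theorem exists_bound [CompleteSpace E] (hE : IsGlobalization (D 2) p π j) :
    ∃ M : ℝ, 0 ≤ M ∧ ∀ t ∈ Set.Icc (0 : ℝ) 1, ∀ x, ‖π (gam t) x‖ ≤ M * ‖x‖ := by
  have hcont : Continuous gam := by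
    refine continuous_pi fun i => ?_
    fin_cases i
    · change Continuous fun t => gam t 0
      simp only [gam_zero_apply]
      refine Continuous.subtype_mk ?_ _
      refine continuous_pi fun a => continuous_pi fun b => ?_
      fin_cases a <;> fin_cases b
      · exact Real.continuous_exp
      · exact continuous_const
      · exact continuous_const
      · exact Real.continuous_exp.comp continuous_neg
    · change Continuous fun t => gam t 1
      simp only [gam_one_apply]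
      exact continuous_const
  obtain ⟨M, hM⟩ := banach_steinhaus (g := fun t : Set.Icc (0 : ℝ) 1 => π (gam t)) (by
    intro x
    have h1 : Continuous fun t : Set.Icc (0 : ℝ) 1 => ‖π (gam t) x‖ :=
      ((hE.cont x).comp (hcont.comp continuous_subtype_val)).norm
    obtain ⟨C, hC⟩ := (isCompact_range h1).bddAbove
    exact ⟨C, fun t => hC ⟨t, rfl⟩⟩)
  refine ⟨max M 0, le_max_right _ _, fun t ht x => ?_⟩
  exact ((π (gam t)).le_opNorm x).trans (by gcongr; exact (hM ⟨t, ht⟩).trans (le_max_left _ _))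

/-- The Taylor polynomial. -/
noncomputable def tay (N : ℕ) (t : ℝ) (v : V 2) : V 2 :=
  ∑ n ∈ Finset.range N, ((t ^ n / n.factorial : ℝ) : ℂ) • (oh 0 ^ n) v

theorem tay_zero_left (t : ℝ) (v : V 2) : tay 0 t v = 0 := rfl

theorem hasDerivAt_tay (N : ℕ) (v : V 2) (t : ℝ) :
    HasDerivAt (fun t => j (tay (N + 1) t v)) (j (tay N t (oh 0 v))) t := by
  have h1 : ∀ t, j (tay (N + 1) t v) = ∑ n ∈ Finset.range N,
      ((t ^ (n + 1) / (n + 1).factorial : ℝ) : ℂ) • j ((oh 0 ^ (n + 1)) v) + j v := by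
    intro t
    rw [tay, map_sum, Finset.sum_range_succ']
    simp only [map_smul]
    congr 1
    simp
  simp_rw [h1]
  have h2 : ∀ n : ℕ, HasDerivAt (fun t : ℝ => ((t ^ (n + 1) / (n + 1).factorial : ℝ) : ℂ) •
      j ((oh 0 ^ (n + 1)) v)) (((t ^ n / n.factorial : ℝ) : ℂ) • j ((oh 0 ^ n) (oh 0 v))) t := by
    intro n
    have h3 : HasDerivAt (fun t : ℝ => t ^ (n + 1) / (n + 1).factorial)
        (t ^ n / n.factorial) t := by
      refine ((hasDerivAt_pow (n + 1) t).div_const _).congr_deriv ?_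
      rw [Nat.factorial_succ]
      have : (n.factorial : ℝ) ≠ 0 := by exact_mod_cast n.factorial_ne_zero
      push_cast
      field_simp
    have h4 := h3.ofReal_comp.smul_const (j ((oh 0 ^ (n + 1)) v))
    rw [pow_succ, Module.End.mul_apply] at h4 ⊢
    exact h4
  refine ((HasDerivAt.fun_sum fun n _ => h2 n).add_const (j v)).congr_deriv ?_
  rw [tay, map_sum]
  simp only [map_smul]

theorem tay_at_zero (N : ℕ) (v : V 2) : tay (N + 1) 0 v = v := by
  rw [tay, Finset.sum_range_succ']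
  simp

theorem remainder (hE : IsGlobalization (D 2) p π j) (M : ℝ)
    (hM : ∀ t ∈ Set.Icc (0 : ℝ) 1, ∀ x, ‖π (gam t) x‖ ≤ M * ‖x‖) (N : ℕ) :
    ∀ v : V 2, ∀ t ∈ Set.Icc (0 : ℝ) 1, ‖π (gam t) (j v) - j (tay N t v)‖ ≤
      M * p ((oh 0 ^ N) v) * (t ^ N / N.factorial) := by
  have hgam0 : gam 0 = 1 := by
    have := gam_add 0 0
    rw [add_zero] at this
    exact mul_eq_left.1 this.symm
  induction N with
  | zero =>
    intro v t ht
    rw [tay_zero_left, map_zero, sub_zero, pow_zero, Module.End.one_apply, ← hE.norm_eq]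
    simpa using hM t ht (j v)
  | succ N ih =>
    intro v
    have hp0 : 0 ≤ p ((oh 0 ^ (N + 1)) v) := by rw [← hE.norm_eq]; exact norm_nonneg _
    have hder : ∀ t : ℝ, HasDerivAt (fun t => π (gam t) (j v) - j (tay (N + 1) t v))
        (π (gam t) (j (oh 0 v)) - j (tay N t (oh 0 v))) t := fun t =>
      (orbit_deriv hE v t).fun_sub (hasDerivAt_tay N v t)
    refine image_norm_le_of_norm_deriv_right_le_deriv_boundary
      (f := fun t => π (gam t) (j v) - j (tay (N + 1) t v))
      (f' := fun t => π (gam t) (j (oh 0 v)) - j (tay N t (oh 0 v)))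
      (B' := fun t => M * p ((oh 0 ^ (N + 1)) v) * (t ^ N / N.factorial))
      (fun t _ => (hder t).continuousAt.continuousWithinAt)
      (fun t _ => (hder t).hasDerivWithinAt) ?_ (fun t => ?_) (fun t ht => ?_)
    · rw [hgam0, map_one, tay_at_zero]
      simp
    · refine (HasDerivAt.const_mul (M * p ((oh 0 ^ (N + 1)) v)) ?_)
      refine ((hasDerivAt_pow (N + 1) t).div_const _).congr_deriv ?_
      rw [Nat.factorial_succ]
      have : (N.factorial : ℝ) ≠ 0 := by exact_mod_cast N.factorial_ne_zero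
      push_cast
      field_simp
    · have h1 := ih (oh 0 v) t ⟨ht.1, ht.2.le⟩
      rw [pow_succ, Module.End.mul_apply]
      exact h1

theorem tendsto_aux1 (A B : ℝ) (hB : 0 < B) :
    Tendsto (fun x : ℝ => x / (A + B * x)) atTop (𝓝 (1 / B)) := by
  have h1 : Tendsto (fun x : ℝ => 1 / (A / x + B)) atTop (𝓝 (1 / (0 + B))) :=
    tendsto_const_nhds.div ((tendsto_const_nhds.div_atTop tendsto_id).add_const B)
      (by rw [zero_add]; exact hB.ne')
  rw [zero_add] at h1
  refine h1.congr' ?_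
  filter_upwards [eventually_gt_atTop (0 : ℝ)] with x hx
  have : A / x + B = (A + B * x) / x := by field_simp
  rw [this, one_div_div]

theorem tendsto_aux2 (C A B : ℝ) (hB : 0 < B) :
    Tendsto (fun x : ℝ => C / (A + B * x)) atTop (𝓝 0) :=
  tendsto_const_nhds.div_atTop (tendsto_atTop_add_const_left _ _ (tendsto_id.const_mul_atTop hB))

theorem sq_tendsto (a : ℤ) : Tendsto (fun k : ℕ => ((a + (k : ℤ) : ℤ) : ℝ) ^ 2) atTop atTop := by
  have h1 : Tendsto (fun k : ℕ => ((a + (k : ℤ) : ℤ) : ℝ)) atTop atTop := by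
    push_cast
    exact tendsto_atTop_add_const_left _ _ tendsto_natCast_atTop_atTop
  exact (tendsto_pow_atTop two_ne_zero).comp h1

theorem sq_tendsto' (a : ℤ) : Tendsto (fun k : ℕ => ((a + -(k : ℤ) : ℤ) : ℝ) ^ 2) atTop atTop := by
  refine (sq_tendsto (-a)).congr fun k => ?_
  push_cast
  ring

theorem mu_lim0 (c : ℝ) (hc : 0 < c) (m : Fin 2 → ℤ) (n : ℕ → ℤ)
    (hn : Tendsto (fun k : ℕ => ((m 0 + n k : ℤ) : ℝ) ^ 2) atTop atTop) :
    Tendsto (fun k => ((m + Pi.single 0 (n k) : Fin 2 → ℤ) 0 : ℝ) ^ 2 /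
      ev c (m + Pi.single 0 (n k))) atTop (𝓝 (1 / (4 * c))) := by
  have h1 := (tendsto_aux1 (1 + 4 * c * (m 1 : ℝ) ^ 2) (4 * c) (by positivity)).comp hn
  refine h1.congr fun k => ?_
  have e1 : (m + Pi.single 0 (n k) : Fin 2 → ℤ) 1 = m 1 := by
    rw [Pi.add_apply, Pi.single_eq_of_ne (by decide), add_zero]
  have e0 : (m + Pi.single 0 (n k) : Fin 2 → ℤ) 0 = m 0 + n k := by
    rw [Pi.add_apply, Pi.single_eq_same]
  rw [ev, e1, e0, Function.comp_apply]
  congr 1
  ring

theorem mu_lim1 (c : ℝ) (hc : 0 < c) (m : Fin 2 → ℤ) (n : ℕ → ℤ)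
    (hn : Tendsto (fun k : ℕ => ((m 1 + n k : ℤ) : ℝ) ^ 2) atTop atTop) :
    Tendsto (fun k => ((m + Pi.single 1 (n k) : Fin 2 → ℤ) 0 : ℝ) ^ 2 /
      ev c (m + Pi.single 1 (n k))) atTop (𝓝 0) := by
  have h1 := (tendsto_aux2 ((m 0 : ℝ) ^ 2) (1 + 4 * c * (m 0 : ℝ) ^ 2) (4 * c)
    (by positivity)).comp hn
  refine h1.congr fun k => ?_
  have e1 : (m + Pi.single 1 (n k) : Fin 2 → ℤ) 1 = m 1 + n k := by
    rw [Pi.add_apply, Pi.single_eq_same]
  have e0 : (m + Pi.single 1 (n k) : Fin 2 → ℤ) 0 = m 0 := by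
    rw [Pi.add_apply, Pi.single_eq_of_ne (by decide), add_zero]
  rw [ev, e1, e0, Function.comp_apply]
  congr 1
  ring

/-- The inverse Sobolev operator. -/
noncomputable def inv2 (c : ℝ) : V 2 →ₗ[ℂ] V 2 :=
  Finsupp.linearCombination ℂ fun m => (Finsupp.single m (((ev c m)⁻¹ : ℝ) : ℂ) : V 2)

theorem inv2_single (c : ℝ) (m : Fin 2 → ℤ) (z : ℂ) :
    inv2 c (Finsupp.single m z) = Finsupp.single m (z * (((ev c m)⁻¹ : ℝ) : ℂ)) := by
  rw [inv2, Finsupp.linearCombination_single, Finsupp.smul_single, smul_eq_mul]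

theorem ev_pos (c : ℝ) (hc : 0 < c) (m : Fin 2 → ℤ) : 0 < ev c m := by
  unfold ev
  positivity

theorem sob_inv2 (c : ℝ) (hc : 0 < c) (w : V 2) : sob 2 c 2 (inv2 c w) = w := by
  have h : sob 2 c 2 ∘ₗ inv2 c = LinearMap.id := by
    refine Finsupp.lhom_ext fun m z => ?_
    have h1 : (ev c m : ℂ) ≠ 0 := by exact_mod_cast (ev_pos c hc m).ne'
    rw [LinearMap.comp_apply, inv2_single, sob_two_single, LinearMap.id_apply, Complex.ofReal_inv,
      mul_assoc, inv_mul_cancel₀ h1, mul_one]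
  exact LinearMap.congr_fun h w

theorem SS_inv2 (c : ℝ) (w : V 2) :
    SS (inv2 c w) = Lam (fun m => (m 0 : ℝ) ^ 2 / ev c m) w := by
  have h : SS ∘ₗ inv2 c = Lam (fun m => (m 0 : ℝ) ^ 2 / ev c m) := by
    refine Finsupp.lhom_ext fun m z => ?_
    rw [LinearMap.comp_apply, inv2_single, SS, Lam_single, Lam_single]
    push_cast
    ring
  exact LinearMap.congr_fun h w

theorem not_gcontinuous (c : ℝ) (hc : 0 < c) : ¬ IsGContinuous (D 2) (p2 c) := by
  rintro ⟨E, _, _, _, π, j, hE⟩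
  obtain ⟨M, _, hM⟩ := exists_bound hE
  have ht : (1 / 4 : ℝ) ∈ Set.Icc (0 : ℝ) 1 := by constructor <;> norm_num
  -- the key inequality
  have key : ∀ v : V 2, 4 * c * ‖SS v‖ ≤ (1 + M) * p2 c v := by
    intro v
    have hlim := (p2_limit c hc v).const_mul M
    rw [mul_zero] at hlim
    have hlim2 : Tendsto (fun N : ℕ => p2 c v + (M * p2 c v +
        M * (p2 c ((oh 0 ^ N) v) * ((1 / 4 : ℝ) ^ N / N.factorial)))) atTop
        (𝓝 (p2 c v + (M * p2 c v + 0))) :=
      tendsto_const_nhds.add (tendsto_const_nhds.add hlim)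
    have hfin : 4 * c * ‖SS v‖ ≤ p2 c v + (M * p2 c v + 0) := by
      refine ge_of_tendsto hlim2 ?_
      filter_upwards [eventually_ge_atTop 2] with N hN
      -- the Taylor polynomial
      have h1 : ‖j (tay N (1 / 4) v)‖ ≤ M * p2 c v +
          M * (p2 c ((oh 0 ^ N) v) * ((1 / 4 : ℝ) ^ N / N.factorial)) := by
        have h2 := remainder hE M hM N v (1 / 4) ht
        have h3 := hM (1 / 4) ht (j v)
        rw [hE.norm_eq] at h3
        calc ‖j (tay N (1 / 4) v)‖ = ‖π (gam (1 / 4)) (j v) - (π (gam (1 / 4)) (j v) -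
              j (tay N (1 / 4) v))‖ := by congr 1; abel
          _ ≤ ‖π (gam (1 / 4)) (j v)‖ + ‖π (gam (1 / 4)) (j v) - j (tay N (1 / 4) v)‖ :=
            norm_sub_le _ _
          _ ≤ _ := by rw [mul_assoc M] at h2; exact add_le_add h3 h2
      have h4 : ‖ell c (tay N (1 / 4) v)‖ ≤ ‖j (tay N (1 / 4) v)‖ := by
        rw [hE.norm_eq]
        exact ell_le c _
      -- the value of the functional
      obtain ⟨N, rfl⟩ : ∃ K, N = K + 1 := ⟨N - 1, by omega⟩
      have h5 : ell c (tay (N + 1) (1 / 4) v) = ell c v + 4 * c * SS v *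
          ((∑ n ∈ Finset.range N, (1 / (n + 1).factorial : ℝ) : ℝ) : ℂ) := by
        rw [tay, map_sum, Finset.sum_range_succ']
        simp only [map_smul, ell_pow, pow_zero, Module.End.one_apply, Nat.factorial_zero]
        rw [add_comm]
        push_cast
        rw [Finset.mul_sum]
        congr 1
        · simp
        · refine Finset.sum_congr rfl fun n _ => ?_
          have h6 : ((1 / 4 : ℂ)) ^ (n + 1) * 4 ^ (n + 1) = 1 := by
            rw [← mul_pow]
            norm_num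
          rw [smul_eq_mul]
          have h7 : ((n + 1).factorial : ℂ) ≠ 0 := by exact_mod_cast (n + 1).factorial_ne_zero
          field_simp
          linear_combination (c * SS v) * h6
      have h6 : (1 : ℝ) ≤ ∑ n ∈ Finset.range N, (1 / (n + 1).factorial : ℝ) := by
        calc (1 : ℝ) = ∑ n ∈ Finset.range 1, (1 / (n + 1).factorial : ℝ) := by simp
          _ ≤ _ := Finset.sum_le_sum_of_subset_of_nonneg
            (Finset.range_mono (by omega)) (fun n _ _ => by positivity)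
      have h7 : ‖4 * (c : ℂ) * SS v * ((∑ n ∈ Finset.range N, (1 / (n + 1).factorial : ℝ) : ℝ) : ℂ)‖ =
          4 * c * ‖SS v‖ * ∑ n ∈ Finset.range N, (1 / (n + 1).factorial : ℝ) := by
        rw [norm_mul, norm_mul, norm_mul, Complex.norm_real, Complex.norm_real,
          Real.norm_of_nonneg hc.le, Real.norm_of_nonneg (by linarith)]
        norm_num
      have h8 : 4 * c * ‖SS v‖ ≤ 4 * c * ‖SS v‖ * ∑ n ∈ Finset.range N,
          (1 / (n + 1).factorial : ℝ) := by
        have : 0 ≤ 4 * c * ‖SS v‖ := by positivity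
        nlinarith
      have h9 : ‖4 * (c : ℂ) * SS v * ((∑ n ∈ Finset.range N, (1 / (n + 1).factorial : ℝ) : ℝ) : ℂ)‖ ≤
          ‖ell c v‖ + ‖ell c (tay (N + 1) (1 / 4) v)‖ := by
        have : 4 * (c : ℂ) * SS v * ((∑ n ∈ Finset.range N, (1 / (n + 1).factorial : ℝ) : ℝ) : ℂ) =
            ell c (tay (N + 1) (1 / 4) v) - ell c v := by rw [h5]; ring
        rw [this]
        exact (norm_sub_le _ _).trans_eq (add_comm _ _)
      have h10 : ‖ell c v‖ ≤ p2 c v := ell_le c v
      linarith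
    linarith
  -- the multiplier
  refine riesz (fun m => (m 0 : ℝ) ^ 2 / ev c m) (fun m => ?_) (1 / (4 * c)) (by positivity)
    (fun k => Pi.single 0 (k : ℤ)) (fun k => Pi.single 1 (k : ℤ))
    (fun m => mu_lim0 c hc m _ (sq_tendsto _)) (fun m => ?_)
    (fun m => mu_lim1 c hc m _ (sq_tendsto _)) (fun m => ?_)
    ⟨(1 + M) / (4 * c), fun w => ?_⟩
  · exact div_nonneg (sq_nonneg _) (ev_pos c hc m).le
  · simp only [← Pi.single_neg]
    exact mu_lim0 c hc m _ (sq_tendsto' _)
  · simp only [← Pi.single_neg]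
    exact mu_lim1 c hc m _ (sq_tendsto' _)
  · have h1 := key (inv2 c w)
    rw [SS_inv2, p2, sob_inv2 c hc] at h1
    rw [div_mul_eq_mul_div, le_div_iff₀ (by positivity)]
    linarith

end Q4.HC
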