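import Pool.Agent.Q4.HC.Defs

/-!
# The action of `SL(2, ℝ)` on the circle
-/

open Filter Topology ComplexConjugate

namespace Q4.HC

/-- `SL(2, ℝ)`. -/
abbrev SL : Type := Matrix.SpecialLinearGroup (Fin 2) ℝ

theorem det_SL (g : SL) : g 0 0 * g 1 1 - g 0 1 * g 1 0 = 1 := by
  have := g.det_coe
  rw [Matrix.det_fin_two] at this
  exact this

/-- The coefficient `α` of `z ↦ α z + β conj z`. -/
noncomputable def al (g : SL) : ℂ :=
  ((g 0 0 + g 1 1 : ℝ) + (g 1 0 - g 0 1 : ℝ) * Complex.I) / 2

/-- The coefficient `β` of `z ↦ α z + β conj z`. -/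
noncomputable def be (g : SL) : ℂ :=
  ((g 0 0 - g 1 1 : ℝ) + (g 1 0 + g 0 1 : ℝ) * Complex.I) / 2

theorem conj_al (g : SL) : conj (al g) =
    ((g 0 0 + g 1 1 : ℝ) - (g 1 0 - g 0 1 : ℝ) * Complex.I) / 2 := by
  simp only [al, map_div₀, map_add, map_mul, Complex.conj_ofReal, Complex.conj_I, map_ofNat]
  ring

theorem conj_be (g : SL) : conj (be g) =
    ((g 0 0 - g 1 1 : ℝ) - (g 1 0 + g 0 1 : ℝ) * Complex.I) / 2 := by
  simp only [be, map_div₀, map_add, map_mul, Complex.conj_ofReal, Complex.conj_I, map_ofNat]
  ring

theorem al_be (g : SL) : al g * conj (al g) - be g * conj (be g) = 1 := by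
  rw [conj_al, conj_be, al, be]
  have h : ((g 0 0 : ℂ) * g 1 1 - g 0 1 * g 1 0) = 1 := by
    exact_mod_cast congrArg (fun x : ℝ => (x : ℂ)) (det_SL g)
  push_cast
  linear_combination h + ((((g 1 0 : ℂ) + g 0 1) ^ 2 - ((g 1 0 : ℂ) - g 0 1) ^ 2) / 4) *
    Complex.I_sq

theorem al_mul (g h : SL) : al (g * h) = al g * al h + be g * conj (be h) := by
  rw [conj_be]
  simp only [al, be, Matrix.SpecialLinearGroup.coe_mul, Matrix.mul_apply, Fin.sum_univ_two]
  push_cast
  ring_nf
  simp only [Complex.I_sq]
  ring

theorem be_mul (g h : SL) : be (g * h) = al g * be h + be g * conj (al h) := by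
  rw [conj_al]
  simp only [al, be, Matrix.SpecialLinearGroup.coe_mul, Matrix.mul_apply, Fin.sum_univ_two]
  push_cast
  ring_nf
  simp only [Complex.I_sq]
  ring

theorem al_one : al 1 = 1 := by simp [al]

theorem be_one : be 1 = 0 := by simp [be]

theorem al_inv (g : SL) : al g⁻¹ = conj (al g) := by
  rw [conj_al, al, Matrix.SpecialLinearGroup.SL2_inv_expl]
  simp
  ring

theorem be_inv (g : SL) : be g⁻¹ = -be g := by
  rw [be, be, Matrix.SpecialLinearGroup.SL2_inv_expl]
  simp
  ring

/-- The point of the complex unit circle attached to a point of `ℝ / ℤ`. -/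
noncomputable def zz (x : UnitAddCircle) : ℂ := (AddCircle.toCircle x : ℂ)

theorem zz_mul_conj (x : UnitAddCircle) : zz x * conj (zz x) = 1 := by
  rw [zz, Complex.mul_conj, Circle.normSq_coe]
  norm_num

theorem zz_inj {x y : UnitAddCircle} (h : zz x = zz y) : x = y :=
  AddCircle.injective_toCircle one_ne_zero (Subtype.ext h)

/-- The denominator. -/
noncomputable def den (g : SL) (u : ℂ) : ℂ := conj (be g) * u + conj (al g)

/-- The numerator. -/
noncomputable def num (g : SL) (u : ℂ) : ℂ := al g * u + be g

theorem num_eq (g : SL) {u : ℂ} (hu : u * conj u = 1) : num g u = u * conj (den g u) := by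
  rw [num, den]
  simp only [map_add, map_mul, Complex.conj_conj]
  linear_combination -(be g) * hu

theorem den_ne (g : SL) {u : ℂ} (hu : u * conj u = 1) : den g u ≠ 0 := by
  intro h
  have h1 : num g u = 0 := by rw [num_eq g hu, h, map_zero, mul_zero]
  rw [den] at h
  rw [num] at h1
  have h2 := al_be g
  have h3 : u = 0 := by linear_combination (-u) * h2 + conj (al g) * h1 - be g * h
  rw [h3] at hu
  simp at hu

theorem circ_conj (u : Circle) : (u : ℂ) * conj (u : ℂ) = 1 := by
  rw [Complex.mul_conj, Circle.normSq_coe]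
  norm_num

theorem norm_mob (g : SL) (u : Circle) : ‖num g u / den g u‖ = 1 := by
  rw [norm_div, num_eq g (circ_conj u), norm_mul, Circle.norm_coe, one_mul,
    RCLike.norm_conj, div_self]
  exact norm_ne_zero_iff.2 (den_ne g (circ_conj u))

/-- The action on the circle. -/
noncomputable def mob (g : SL) (u : Circle) : Circle :=
  ⟨num g u / den g u, mem_sphere_zero_iff_norm.2 (norm_mob g u)⟩

theorem mob_coe (g : SL) (u : Circle) : (mob g u : ℂ) = num g u / den g u := rfl

theorem mob_mul (g h : SL) (u : Circle) : mob (g * h) u = mob g (mob h u) := by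
  apply Subtype.ext
  rw [mob_coe, mob_coe, mob_coe]
  have h1 := den_ne h (circ_conj u)
  have h2 := den_ne (g * h) (circ_conj u)
  have h3 := den_ne g (circ_conj (mob h u))
  rw [mob_coe] at h3
  have hq : num h u / den h u * den h u = num h u := div_mul_cancel₀ _ h1
  have e1 : num (g * h) u = num g (num h u / den h u) * den h u := by
    generalize num h u / den h u = q at hq
    simp only [num, den, al_mul, be_mul] at hq ⊢
    linear_combination (-(al g)) * hq
  have e2 : den (g * h) u = den g (num h u / den h u) * den h u := by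
    generalize num h u / den h u = q at hq
    simp only [num, den, al_mul, be_mul, map_add, map_mul, Complex.conj_conj] at hq ⊢
    linear_combination (-(conj (be g))) * hq
  rw [e1, e2, mul_div_mul_right _ _ h1]

theorem mob_one (u : Circle) : mob 1 u = u := by
  apply Subtype.ext
  rw [mob_coe, num, den, al_one, be_one]
  simp

theorem continuous_al : Continuous al := by
  unfold al
  have h : ∀ i j : Fin 2, Continuous fun g : SL => g i j := fun i j =>
    (continuous_subtype_val (p := fun A : Matrix (Fin 2) (Fin 2) ℝ => A.det = 1)).matrix_elem i j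
  have h1 := h 0 0
  have h2 := h 0 1
  have h3 := h 1 0
  have h4 := h 1 1
  fun_prop

theorem continuous_be : Continuous be := by
  unfold be
  have h : ∀ i j : Fin 2, Continuous fun g : SL => g i j := fun i j =>
    (continuous_subtype_val (p := fun A : Matrix (Fin 2) (Fin 2) ℝ => A.det = 1)).matrix_elem i j
  have h1 := h 0 0
  have h2 := h 0 1
  have h3 := h 1 0
  have h4 := h 1 1
  fun_prop

theorem continuous_mob : Continuous fun p : SL × Circle => mob p.1 p.2 := by
  refine Continuous.subtype_mk ?_ _
  have h1 : Continuous fun p : SL × Circle => al p.1 := continuous_al.comp continuous_fst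
  have h2 : Continuous fun p : SL × Circle => be p.1 := continuous_be.comp continuous_fst
  have h3 : Continuous fun p : SL × Circle => (p.2 : ℂ) :=
    continuous_subtype_val.comp continuous_snd
  have h4 : Continuous fun p : SL × Circle => num p.1 p.2 := (h1.mul h3).add h2
  have h5 : Continuous fun p : SL × Circle => den p.1 p.2 :=
    ((Complex.continuous_conj.comp h2).mul h3).add (Complex.continuous_conj.comp h1)
  exact h4.div h5 fun p => den_ne p.1 (circ_conj p.2)

/-- The homeomorphism with the circle. -/
noncomputable def hc : UnitAddCircle ≃ₜ Circle := AddCircle.homeomorphCircle one_ne_zero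

theorem hc_coe (x : UnitAddCircle) : ((hc x : Circle) : ℂ) = zz x := by
  rw [hc, AddCircle.homeomorphCircle_apply]
  rfl

/-- The action on `ℝ / ℤ`. -/
noncomputable def act1 (g : SL) (x : UnitAddCircle) : UnitAddCircle := hc.symm (mob g (hc x))

theorem act1_mul (g h : SL) (x : UnitAddCircle) : act1 (g * h) x = act1 g (act1 h x) := by
  rw [act1, act1, act1, Homeomorph.apply_symm_apply, mob_mul]

theorem act1_one (x : UnitAddCircle) : act1 1 x = x := by
  rw [act1, mob_one, Homeomorph.symm_apply_apply]

theorem zz_act1 (g : SL) (x : UnitAddCircle) :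
    zz (act1 g x) = num g (zz x) / den g (zz x) := by
  rw [← hc_coe, act1, Homeomorph.apply_symm_apply, mob_coe, hc_coe]

theorem continuous_act1 : Continuous fun p : SL × UnitAddCircle => act1 p.1 p.2 := by
  have h1 : Continuous fun p : SL × UnitAddCircle => (p.1, hc p.2) :=
    continuous_fst.prodMk (hc.continuous.comp continuous_snd)
  have h2 : Continuous ((fun q : SL × Circle => mob q.1 q.2) ∘
      fun p : SL × UnitAddCircle => (p.1, hc p.2)) := Continuous.comp continuous_mob h1
  have h3 : Continuous (hc.symm ∘ ((fun q : SL × Circle => mob q.1 q.2) ∘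
      fun p : SL × UnitAddCircle => (p.1, hc p.2))) := Continuous.comp hc.symm.continuous h2
  exact h3

end Q4.HC
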