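import Pool.Agent.Q4.HC.TDeriv

/-!
# The Harish-Chandra module of trigonometric polynomials
-/

open Filter Topology ComplexConjugate

namespace Q4.HC

variable {r : ℕ}

/-- The module: finitely supported coefficient families (trigonometric polynomials). -/
abbrev V (r : ℕ) : Type := (Fin r → ℤ) →₀ ℂ

/-- The operators `u^m ↦ m_i u^(m + s e_i)`. -/
noncomputable def TT (i : Fin r) (s : ℤ) : Module.End ℂ (V r) :=
  Finsupp.linearCombination ℂ fun m => (Finsupp.single (m + Pi.single i s) (m i : ℂ) : V r)

theorem TT_single (i : Fin r) (s : ℤ) (m : Fin r → ℤ) (c : ℂ) :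
    TT i s (Finsupp.single m c) = Finsupp.single (m + Pi.single i s) (c * m i) := by
  rw [TT, Finsupp.linearCombination_single, Finsupp.smul_single, smul_eq_mul]

theorem TT_TT (i : Fin r) (a b : ℤ) (m : Fin r → ℤ) (c : ℂ) :
    TT i a (TT i b (Finsupp.single m c)) =
      Finsupp.single (m + Pi.single i (b + a)) (c * m i * (m i + b)) := by
  rw [TT_single, TT_single, add_assoc, ← Pi.single_add]
  simp

theorem TT_TT_ne {i k : Fin r} (hik : i ≠ k) (a b : ℤ) (v : V r) :
    TT i a (TT k b v) = TT k b (TT i a v) := by
  have h : TT i a ∘ₗ TT k b = TT k b ∘ₗ TT i a := by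
    refine Finsupp.lhom_ext fun m c => ?_
    simp only [LinearMap.comp_apply, TT_single, Pi.add_apply, Pi.single_eq_of_ne hik,
      Pi.single_eq_of_ne hik.symm, add_zero]
    congr 1
    · abel
    · ring
  exact LinearMap.congr_fun h v

/-- The operators `h`. -/
noncomputable def oh (i : Fin r) : Module.End ℂ (V r) := TT i 1 - TT i (-1)

/-- The operators `e`. -/
noncomputable def oe (i : Fin r) : Module.End ℂ (V r) :=
  Complex.I • (TT i 0 - (1 / 2 : ℂ) • TT i (-1) - (1 / 2 : ℂ) • TT i 1)

/-- The operators `f`. -/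
noncomputable def of (i : Fin r) : Module.End ℂ (V r) :=
  Complex.I • (-TT i 0 - (1 / 2 : ℂ) • TT i (-1) - (1 / 2 : ℂ) • TT i 1)

/-- The data of the module. -/
noncomputable def D (r : ℕ) : Ops r (V r) where
  h := fun i => oh i
  e := fun i => oe i
  f := fun i => of i

theorem TT_bracket (i : Fin r) (a b : ℤ) :
    TT i a * TT i b = TT i b * TT i a + ((b - a : ℤ) : ℂ) • TT i (a + b) := by
  refine Finsupp.lhom_ext fun m c => ?_
  change TT i a (TT i b (Finsupp.single m c)) = TT i b (TT i a (Finsupp.single m c)) +
    ((b - a : ℤ) : ℂ) • TT i (a + b) (Finsupp.single m c)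
  rw [TT_TT, TT_TT, TT_single, Finsupp.smul_single, smul_eq_mul, add_comm b a, ← Finsupp.single_add]
  congr 1
  push_cast
  ring

theorem b10 (i : Fin r) (v : V r) : TT i 1 (TT i 0 v) = TT i 0 (TT i 1 v) - TT i 1 v := by
  have h := LinearMap.congr_fun (TT_bracket i 1 0) v
  change TT i 1 (TT i 0 v) = TT i 0 (TT i 1 v) + ((0 - 1 : ℤ) : ℂ) • TT i (1 + 0) v at h
  rw [h]
  norm_num
  module

theorem b1m (i : Fin r) (v : V r) :
    TT i 1 (TT i (-1) v) = TT i (-1) (TT i 1 v) - (2 : ℂ) • TT i 0 v := by
  have h := LinearMap.congr_fun (TT_bracket i 1 (-1)) v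
  change TT i 1 (TT i (-1) v) = TT i (-1) (TT i 1 v) + ((-1 - 1 : ℤ) : ℂ) • TT i (1 + -1) v at h
  rw [h]
  norm_num
  module

theorem b0m (i : Fin r) (v : V r) :
    TT i 0 (TT i (-1) v) = TT i (-1) (TT i 0 v) - TT i (-1) v := by
  have h := LinearMap.congr_fun (TT_bracket i 0 (-1)) v
  change TT i 0 (TT i (-1) v) = TT i (-1) (TT i 0 v) + ((-1 - 0 : ℤ) : ℂ) • TT i (0 + -1) v at h
  rw [h]
  norm_num
  module

theorem oh_apply (i : Fin r) (v : V r) : oh i v = TT i 1 v - TT i (-1) v := rfl

theorem oe_apply (i : Fin r) (v : V r) : oe i v =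
    Complex.I • (TT i 0 v - (1 / 2 : ℂ) • TT i (-1) v - (1 / 2 : ℂ) • TT i 1 v) := rfl

theorem of_apply (i : Fin r) (v : V r) : of i v =
    Complex.I • (-TT i 0 v - (1 / 2 : ℂ) • TT i (-1) v - (1 / 2 : ℂ) • TT i 1 v) := rfl

theorem lie_he (i : Fin r) (v : V r) : oh i (oe i v) - oe i (oh i v) = (2 : ℂ) • oe i v := by
  simp only [oh_apply, oe_apply, map_sub, map_smul, b10, b1m, b0m]
  module

theorem lie_hf (i : Fin r) (v : V r) : oh i (of i v) - of i (oh i v) = (-2 : ℂ) • of i v := by
  simp only [oh_apply, of_apply, map_sub, map_smul, map_neg, b10, b1m, b0m]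
  module

theorem lie_ef (i : Fin r) (v : V r) : oe i (of i v) - of i (oe i v) = oh i v := by
  have h1 : oe i (of i v) - of i (oe i v) = (Complex.I * Complex.I) • (-oh i v) := by
    simp only [oh_apply, oe_apply, of_apply, map_sub, map_smul, map_neg, b10, b1m, b0m]
    module
  rw [h1, Complex.I_mul_I, neg_one_smul, neg_neg]

theorem lie_action : (D r).IsLieAction where
  lin_h i := (oh i).isLinear
  lin_e i := (oe i).isLinear
  lin_f i := (of i).isLinear
  he i v := lie_he i v
  hf i v := lie_hf i v
  ef i v := lie_ef i v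
  comm i k hik v := by
    have h1 : ∀ a b v, TT i a (TT k b v) = TT k b (TT i a v) := fun a b v => TT_TT_ne hik a b v
    refine ⟨?_, ?_, ?_, ?_, ?_, ?_⟩ <;>
    · simp only [D, oh_apply, oe_apply, of_apply, map_sub, map_smul, map_neg, h1]
      module

theorem f_sub_e (i : Fin r) (v : V r) : (D r).f i v - (D r).e i v = (-2 * Complex.I) • TT i 0 v := by
  simp only [D, oe, of, LinearMap.sub_apply, LinearMap.smul_apply, LinearMap.neg_apply]
  module

theorem TT_zero_apply (i : Fin r) (v : V r) (m : Fin r → ℤ) : TT i 0 v m = m i * v m := by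
  have h : Finsupp.lapply m ∘ₗ TT i 0 = (m i : ℂ) • (Finsupp.lapply m : V r →ₗ[ℂ] ℂ) := by
    refine Finsupp.lhom_ext fun n c => ?_
    change TT i 0 (Finsupp.single n c) m = (m i : ℂ) • (Finsupp.single n c : V r) m
    rw [TT_single, Pi.single_zero, add_zero, Finsupp.single_apply, Finsupp.single_apply]
    split_ifs with hnm
    · rw [hnm, smul_eq_mul, mul_comm]
    · rw [smul_zero]
  exact LinearMap.congr_fun h v

theorem isWeight_iff (k : Fin r → ℤ) (v : V r) :
    (D r).IsWeight k v ↔ ∀ m, v m ≠ 0 → ∀ i, k i = -2 * m i := by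
  constructor
  · intro h m hm i
    have h1 := h i
    rw [f_sub_e] at h1
    have h2 := DFunLike.congr_fun h1 m
    simp only [Finsupp.smul_apply, TT_zero_apply, smul_eq_mul] at h2
    have h3 : ((k i : ℂ) + 2 * m i) * (Complex.I * v m) = 0 := by linear_combination -h2
    have h4 : (k i : ℂ) + 2 * m i = 0 :=
      (mul_eq_zero.1 h3).resolve_right (mul_ne_zero Complex.I_ne_zero hm)
    have h5 : k i + 2 * m i = 0 := by exact_mod_cast h4
    linarith
  · intro h i
    rw [f_sub_e]
    ext m
    simp only [Finsupp.smul_apply, TT_zero_apply, smul_eq_mul]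
    by_cases hm : v m = 0
    · rw [hm]
      ring
    · rw [h m hm i]
      push_cast
      ring

theorem isWeight_single (m : Fin r → ℤ) (c : ℂ) :
    (D r).IsWeight (fun i => -2 * m i) (Finsupp.single m c) := by
  rw [isWeight_iff]
  intro n hn i
  rw [Finsupp.single_apply] at hn
  have : m = n := by
    by_contra h
    rw [if_neg h] at hn
    exact hn rfl
  rw [this]

theorem D_h (i : Fin r) (v : V r) : (D r).h i v = TT i 1 v - TT i (-1) v := rfl

theorem TT_one_mem {W : Submodule ℂ (V r)}
    (hW : ∀ i, ∀ v ∈ W, (D r).h i v ∈ W ∧ (D r).e i v ∈ W ∧ (D r).f i v ∈ W) (i : Fin r)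
    {v : V r} (hv : v ∈ W) : TT i 1 v ∈ W ∧ TT i (-1) v ∈ W := by
  obtain ⟨h1, h2, h3⟩ := hW i v hv
  have hs : Complex.I • ((D r).e i v + (D r).f i v) = TT i (-1) v + TT i 1 v := by
    have h4 : Complex.I • ((D r).e i v + (D r).f i v) =
        (Complex.I * Complex.I) • (-(TT i (-1) v + TT i 1 v)) := by
      simp only [D, oe_apply, of_apply]
      module
    rw [h4, Complex.I_mul_I, neg_one_smul, neg_neg]
  have e1 : TT i 1 v = (1 / 2 : ℂ) • ((D r).h i v + Complex.I • ((D r).e i v + (D r).f i v)) := by
    rw [hs]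
    simp only [D, oh_apply]
    module
  have e2 : TT i (-1) v = (1 / 2 : ℂ) • (-(D r).h i v + Complex.I • ((D r).e i v + (D r).f i v)) := by
    rw [hs]
    simp only [D, oh_apply]
    module
  rw [e1, e2]
  exact ⟨W.smul_mem _ (W.add_mem h1 (W.smul_mem _ (W.add_mem h2 h3))),
    W.smul_mem _ (W.add_mem (W.neg_mem h1) (W.smul_mem _ (W.add_mem h2 h3)))⟩

theorem harish_chandra : (D r).IsHarishChandra where
  toIsLieAction := lie_action
  span := by
    rw [eq_top_iff]
    intro v _
    induction v using Finsupp.induction_linear with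
    | zero => exact Submodule.zero_mem _
    | add f g hf hg => exact Submodule.add_mem _ (hf trivial) (hg trivial)
    | single m c => exact Submodule.subset_span ⟨_, isWeight_single m c⟩
  admissible k := by
    have h1 : Submodule.span ℂ {v : V r | (D r).IsWeight k v} ≤
        Submodule.span ℂ {(Finsupp.single (fun i => -(k i) / 2) 1 : V r)} := by
      rw [Submodule.span_le]
      intro v hv
      have hv' := (isWeight_iff k v).1 hv
      have h2 : v = v (fun i => -(k i) / 2) • (Finsupp.single (fun i => -(k i) / 2) 1 : V r) := by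
        rw [Finsupp.smul_single, smul_eq_mul, mul_one]
        ext m
        rw [Finsupp.single_apply]
        split_ifs with h
        · rw [h]
        · by_contra hne
          apply h
          funext i
          have := hv' m hne i
          omega
      rw [h2]
      exact Submodule.smul_mem _ _ (Submodule.subset_span rfl)
    exact Submodule.finiteDimensional_of_le h1
  fin_gen := by
    classical
    let B : Finset (Fin r → ℤ) := Fintype.piFinset fun _ => {-1, 0, 1}
    refine ⟨B.image fun m => Finsupp.single m 1, fun W hS hW => ?_⟩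
    have hS' : ∀ m : Fin r → ℤ, (∀ i, |m i| ≤ 1) → (Finsupp.single m 1 : V r) ∈ W := by
      intro m hm
      refine hS _ (Finset.mem_image.2 ⟨m, ?_, rfl⟩)
      rw [Fintype.mem_piFinset]
      intro i
      have := abs_le.1 (hm i)
      simp only [Finset.mem_insert, Finset.mem_singleton]
      omega
    have key : ∀ (n : ℕ) (m : Fin r → ℤ), ∑ i, (m i).natAbs = n → (Finsupp.single m 1 : V r) ∈ W := by
      intro n
      induction n using Nat.strong_induction_on with
      | _ n ih =>
        intro m hm
        by_cases hall : ∀ i, |m i| ≤ 1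
        · exact hS' m hall
        · push Not at hall
          obtain ⟨i, hi⟩ := hall
          -- lower the coordinate
          have hlt : ∀ s : ℤ, (m i + s).natAbs < (m i).natAbs →
              (Finsupp.single (m + Pi.single i s) 1 : V r) ∈ W := by
            intro s hs
            refine ih _ ?_ _ rfl
            rw [← hm]
            refine Finset.sum_lt_sum (fun j _ => ?_) ⟨i, Finset.mem_univ i, ?_⟩
            · by_cases hj : j = i
              · subst hj
                rw [Pi.add_apply, Pi.single_eq_same]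
                exact hs.le
              · rw [Pi.add_apply, Pi.single_eq_of_ne hj, add_zero]
            · rw [Pi.add_apply, Pi.single_eq_same]
              exact hs
          have hback : ∀ s : ℤ, (m i + s : ℤ) ≠ 0 → (TT i (-s)
              (Finsupp.single (m + Pi.single i s) 1 : V r)) ∈ W →
              (Finsupp.single m 1 : V r) ∈ W := by
            intro s hs hW'
            rw [TT_single, add_assoc, ← Pi.single_add, add_neg_cancel, Pi.single_zero, add_zero,
              one_mul, Pi.add_apply, Pi.single_eq_same] at hW'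
            have h3 := W.smul_mem ((m i + s : ℤ) : ℂ)⁻¹ hW'
            rw [Finsupp.smul_single, smul_eq_mul, inv_mul_cancel₀ (by exact_mod_cast hs)] at h3
            exact h3
          rcases lt_abs.1 hi with h | h
          · refine hback (-1) (by omega) ?_
            rw [neg_neg]
            exact (TT_one_mem hW i (hlt (-1) (by omega))).1
          · refine hback 1 (by omega) ?_
            exact (TT_one_mem hW i (hlt 1 (by omega))).2
    rw [eq_top_iff]
    intro v _
    induction v using Finsupp.induction_linear with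
    | zero => exact W.zero_mem
    | add f g hf hg => exact W.add_mem (hf trivial) (hg trivial)
    | single m c =>
      have h1 : (Finsupp.single m c : V r) = c • Finsupp.single m 1 := by
        rw [Finsupp.smul_single, smul_eq_mul, mul_one]
      rw [h1]
      exact W.smul_mem _ (key _ m rfl)

end Q4.HC
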