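import Pool.Agent.Q4.HC.Riesz

/-!
# The Sobolev norm of order two of the supremum norm is not `G`-continuous
-/

open Filter Topology ComplexConjugate

namespace Q4.HC

/-- The Sobolev operator. -/
noncomputable def sob (r : ℕ) (c s : ℝ) : V r →ₗ[ℂ] V r :=
  Finsupp.linearCombination ℂ fun m =>
    (Finsupp.single m (((1 + c * ∑ i, ((-2 * m i : ℤ) : ℝ) ^ 2) ^ (s / 2) : ℝ) : ℂ) : V r)

theorem sob_single (r : ℕ) (c s : ℝ) (m : Fin r → ℤ) (z : ℂ) :
    sob r c s (Finsupp.single m z) = Finsupp.single m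
      (z * (((1 + c * ∑ i, ((-2 * m i : ℤ) : ℝ) ^ 2) ^ (s / 2) : ℝ) : ℂ)) := by
  rw [sob, Finsupp.linearCombination_single, Finsupp.smul_single, smul_eq_mul]

theorem isSobolev_sob (r : ℕ) (c s : ℝ) : IsSobolev (D r) c s (sob r c s) := by
  intro k v hv
  rw [isWeight_iff] at hv
  rw [sob, Finsupp.linearCombination_apply, Finsupp.sum]
  conv_rhs => rw [← Finsupp.sum_single v, Finsupp.sum, Finset.smul_sum]
  refine Finset.sum_congr rfl fun m hm => ?_
  have h1 := hv m (Finsupp.mem_support_iff.1 hm)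
  rw [Finsupp.smul_single, Finsupp.smul_single, smul_eq_mul, smul_eq_mul, mul_comm]
  simp only [h1]

/-- The eigenvalue of the Sobolev operator of order two. -/
noncomputable def ev (c : ℝ) (m : Fin 2 → ℤ) : ℝ := 1 + 4 * c * ((m 0 : ℝ) ^ 2 + (m 1 : ℝ) ^ 2)

theorem sob_two_single (c : ℝ) (m : Fin 2 → ℤ) (z : ℂ) :
    sob 2 c 2 (Finsupp.single m z) = Finsupp.single m (z * ev c m) := by
  rw [sob_single]
  congr 2
  rw [ev, div_self (two_ne_zero), Real.rpow_one, Fin.sum_univ_two]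
  push_cast
  ring

/-- The value of the Sobolev transform at the base point. -/
noncomputable def ell (c : ℝ) : V 2 →ₗ[ℂ] ℂ := Lam (ev c)

theorem tot_single (m : Fin 2 → ℤ) (z : ℂ) : tot (Finsupp.single m z) = z := by
  rw [tot, Finsupp.linearCombination_single, smul_eq_mul, mul_one]

theorem jj_zero (v : V 2) : jj 2 v 0 = tot v := by
  induction v using Finsupp.induction_linear with
  | zero => simp
  | add f g hf hg => simp only [map_add, ContinuousMap.add_apply, hf, hg]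
  | single m c =>
    rw [jj_single_apply]
    have : chi m 0 = 1 := by simp [UnitAddTorus.mFourier]
    rw [this, tot_single, mul_one]

theorem ell_eq (c : ℝ) (v : V 2) : ell c v = jj 2 (sob 2 c 2 v) 0 := by
  rw [jj_zero]
  have h : ell c = tot ∘ₗ sob 2 c 2 := by
    refine Finsupp.lhom_ext fun m z => ?_
    rw [ell, Lam_single, LinearMap.comp_apply, sob_two_single, tot_single]
  exact LinearMap.congr_fun h v

theorem ell_le (c : ℝ) (v : V 2) : ‖ell c v‖ ≤ ‖jj 2 (sob 2 c 2 v)‖ := by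
  rw [ell_eq]
  exact ContinuousMap.norm_coe_le_norm _ _

/-- The second derivative in the first direction at the base point. -/
noncomputable def SS : V 2 →ₗ[ℂ] ℂ := Lam fun m => (m 0 : ℝ) ^ 2

theorem oh_single (m : Fin 2 → ℤ) (z : ℂ) : oh 0 (Finsupp.single m z : V 2) =
    Finsupp.single (m + Pi.single 0 1) (z * m 0) - Finsupp.single (m + Pi.single 0 (-1)) (z * m 0) := by
  rw [oh_apply, TT_single, TT_single]

theorem SS_oh (v : V 2) : SS (oh 0 v) = 4 * SS v := by
  have h : SS ∘ₗ oh 0 = (4 : ℂ) • SS := by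
    refine Finsupp.lhom_ext fun m z => ?_
    rw [LinearMap.comp_apply, oh_single, map_sub, LinearMap.smul_apply, SS, Lam_single, Lam_single,
      Lam_single, smul_eq_mul]
    simp only [Pi.add_apply, Pi.single_eq_same]
    push_cast
    ring
  exact LinearMap.congr_fun h v

theorem ell_oh (c : ℝ) (v : V 2) : ell c (oh 0 v) = 16 * c * SS v := by
  have h : ell c ∘ₗ oh 0 = (16 * c : ℂ) • SS := by
    refine Finsupp.lhom_ext fun m z => ?_
    rw [LinearMap.comp_apply, oh_single, map_sub, LinearMap.smul_apply, SS, ell, Lam_single,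
      Lam_single, Lam_single, smul_eq_mul, ev, ev]
    have h1 : ∀ s : ℤ, (m + Pi.single 0 s : Fin 2 → ℤ) 1 = m 1 := by
      intro s
      rw [Pi.add_apply, Pi.single_eq_of_ne (by decide), add_zero]
    have h0 : ∀ s : ℤ, (m + Pi.single 0 s : Fin 2 → ℤ) 0 = m 0 + s := by
      intro s
      rw [Pi.add_apply, Pi.single_eq_same]
    rw [h1, h1, h0, h0]
    push_cast
    ring
  exact LinearMap.congr_fun h v

theorem SS_pow (n : ℕ) (v : V 2) : SS ((oh 0 ^ n) v) = 4 ^ n * SS v := by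
  induction n with
  | zero => simp
  | succ n ih =>
    rw [pow_succ', Module.End.mul_apply, SS_oh, ih, pow_succ]
    ring

theorem ell_pow (c : ℝ) (n : ℕ) (v : V 2) : ell c ((oh 0 ^ (n + 1)) v) =
    4 * c * 4 ^ (n + 1) * SS v := by
  rw [pow_succ', Module.End.mul_apply, ell_oh, SS_pow, pow_succ]
  ring

/-- The norm in question. -/
noncomputable def p2 (c : ℝ) (v : V 2) : ℝ := ‖jj 2 (sob 2 c 2 v)‖

theorem p2_single (c : ℝ) (hc : 0 < c) (m : Fin 2 → ℤ) (z : ℂ) :
    p2 c (Finsupp.single m z) ≤ ‖z‖ * ev c m := by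
  rw [p2, sob_two_single, jj_single, norm_smul, UnitAddTorus.mFourier_norm, mul_one, norm_mul,
    Complex.norm_real, Real.norm_of_nonneg]
  unfold ev
  positivity

theorem p2_sub (c : ℝ) (v w : V 2) : p2 c (v - w) ≤ p2 c v + p2 c w := by
  rw [p2, map_sub, map_sub]
  exact norm_sub_le _ _

/-- The growth of the iterates of `h`. -/
theorem p2_growth (c : ℝ) (hc : 0 < c) (N : ℕ) : ∀ (m : Fin 2 → ℤ) (z : ℂ) (a b : ℕ),
    (m 0).natAbs ≤ a → (m 1).natAbs ≤ b →
    p2 c ((oh 0 ^ N) (Finsupp.single m z)) ≤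
      ‖z‖ * 2 ^ N * (a.ascFactorial N) * (1 + 4 * c * (((a + N : ℕ) : ℝ) ^ 2 + (b : ℝ) ^ 2)) := by
  induction N with
  | zero =>
    intro m z a b ha hb
    rw [pow_zero, Module.End.one_apply]
    refine (p2_single c hc m z).trans ?_
    have h1 : (m 0 : ℝ) ^ 2 ≤ (a : ℝ) ^ 2 := by
      have : |(m 0 : ℝ)| ≤ a := by
        rw [← Int.cast_abs, Int.abs_eq_natAbs]
        exact_mod_cast ha
      rw [← sq_abs (m 0 : ℝ)]
      gcongr
    have h2 : (m 1 : ℝ) ^ 2 ≤ (b : ℝ) ^ 2 := by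
      have : |(m 1 : ℝ)| ≤ b := by
        rw [← Int.cast_abs, Int.abs_eq_natAbs]
        exact_mod_cast hb
      rw [← sq_abs (m 1 : ℝ)]
      gcongr
    rw [pow_zero, Nat.ascFactorial_zero, ev]
    push_cast
    rw [mul_one, mul_one, add_zero]
    gcongr
  | succ N ih =>
    intro m z a b ha hb
    have hm1 : ∀ s : ℤ, (m + Pi.single 0 s : Fin 2 → ℤ) 1 = m 1 := by
      intro s
      rw [Pi.add_apply, Pi.single_eq_of_ne (by decide), add_zero]
    have hm0 : ∀ s : ℤ, (m + Pi.single 0 s : Fin 2 → ℤ) 0 = m 0 + s := by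
      intro s
      rw [Pi.add_apply, Pi.single_eq_same]
    rw [pow_succ, Module.End.mul_apply, oh_single, map_sub]
    refine (p2_sub c _ _).trans ?_
    have h1 := ih (m + Pi.single 0 1) (z * m 0) (a + 1) b (by rw [hm0]; omega) (by rwa [hm1])
    have h2 := ih (m + Pi.single 0 (-1)) (z * m 0) (a + 1) b (by rw [hm0]; omega) (by rwa [hm1])
    refine (add_le_add h1 h2).trans ?_
    have h3 : ‖z * (m 0 : ℂ)‖ ≤ ‖z‖ * a := by
      rw [norm_mul]
      have : ‖(m 0 : ℂ)‖ ≤ a := by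
        rw [Complex.norm_intCast, ← Int.cast_abs, Int.abs_eq_natAbs]
        exact_mod_cast ha
      gcongr
    have h4 : (a + 1 : ℕ) + N = a + (N + 1) := by ring
    rw [h4]
    have h5 : (a.ascFactorial (N + 1) : ℝ) = a * ((a + 1).ascFactorial N : ℝ) := by
      have : a.ascFactorial (N + 1) = a * (a + 1).ascFactorial N := by
        rw [add_comm N 1, ← Nat.ascFactorial_mul_ascFactorial]
        simp [Nat.ascFactorial]
      exact_mod_cast this
    rw [h5]
    have h6 : (0 : ℝ) ≤ 2 ^ N * ((a + 1).ascFactorial N : ℝ) *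
        (1 + 4 * c * (((a + (N + 1) : ℕ) : ℝ) ^ 2 + (b : ℝ) ^ 2)) := by positivity
    calc _ = 2 * (‖z * (m 0 : ℂ)‖ * (2 ^ N * ((a + 1).ascFactorial N : ℝ) *
        (1 + 4 * c * (((a + (N + 1) : ℕ) : ℝ) ^ 2 + (b : ℝ) ^ 2)))) := by ring
      _ ≤ 2 * (‖z‖ * a * (2 ^ N * ((a + 1).ascFactorial N : ℝ) *
        (1 + 4 * c * (((a + (N + 1) : ℕ) : ℝ) ^ 2 + (b : ℝ) ^ 2)))) := by gcongr
      _ = _ := by ring

theorem p2_limit (c : ℝ) (hc : 0 < c) (v : V 2) :
    Tendsto (fun N : ℕ => p2 c ((oh 0 ^ N) v) * ((1 / 4 : ℝ) ^ N / N.factorial)) atTop (𝓝 0) := by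
  induction v using Finsupp.induction_linear with
  | zero => simp [p2]
  | add f g hf hg =>
    have h1 := hf.add hg
    rw [add_zero] at h1
    refine squeeze_zero (fun N => by unfold p2; positivity) (fun N => ?_) h1
    rw [← add_mul]
    have h2 : p2 c ((oh 0 ^ N) (f + g)) ≤ p2 c ((oh 0 ^ N) f) + p2 c ((oh 0 ^ N) g) := by
      rw [p2, map_add, map_add, map_add]
      exact norm_add_le _ _
    gcongr
  | single m z =>
    set a := (m 0).natAbs with ha
    set b := (m 1).natAbs with hb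
    -- the comparison sequence
    have hlim : Tendsto (fun N : ℕ => ‖z‖ * 2 ^ (a + 1) * (1 + 4 * c * (1 + (b : ℝ) ^ 2)) *
        (((a + 1 + N : ℕ) : ℝ) ^ (a + 2) * (1 / 2 : ℝ) ^ (a + 1 + N))) atTop (𝓝 0) := by
      have h1 := tendsto_pow_const_mul_const_pow_of_abs_lt_one (a + 2)
        (r := (1 / 2 : ℝ)) (by rw [abs_of_pos (by norm_num)]; norm_num)
      have h2 := (h1.comp (tendsto_add_atTop_nat (a + 1))).const_mul
        (‖z‖ * 2 ^ (a + 1) * (1 + 4 * c * (1 + (b : ℝ) ^ 2)))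
      rw [mul_zero] at h2
      refine h2.congr fun N => ?_
      simp only [Function.comp_apply, add_comm N (a + 1)]
    refine squeeze_zero (fun N => by unfold p2; positivity) (fun N => ?_) hlim
    have h1 := p2_growth c hc N m z a b le_rfl le_rfl
    have hfac : (0 : ℝ) < N.factorial := by exact_mod_cast N.factorial_pos
    have h2 : (a.ascFactorial N : ℝ) ≤ N.factorial * ((a + 1 + N : ℕ) : ℝ) ^ a := by
      have h3 : a.ascFactorial N ≤ N.factorial * (a + 1 + N) ^ a := by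
        calc a.ascFactorial N ≤ (a + 1).ascFactorial N := Nat.ascFactorial_le N (Nat.le_succ a)
          _ = N.factorial * (a + N).choose N := Nat.ascFactorial_eq_factorial_mul_choose a N
          _ = N.factorial * (a + N).choose a := by rw [Nat.choose_symm_add]
          _ ≤ N.factorial * (a + N) ^ a := Nat.mul_le_mul_left _ (Nat.choose_le_pow _ _)
          _ ≤ N.factorial * (a + 1 + N) ^ a :=
            Nat.mul_le_mul_left _ (Nat.pow_le_pow_left (by omega) _)
      exact_mod_cast h3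
    have h4 : 1 + 4 * c * (((a + N : ℕ) : ℝ) ^ 2 + (b : ℝ) ^ 2) ≤
        (1 + 4 * c * (1 + (b : ℝ) ^ 2)) * ((a + 1 + N : ℕ) : ℝ) ^ 2 := by
      have h5 : (1 : ℝ) ≤ ((a + 1 + N : ℕ) : ℝ) ^ 2 := by
        have : (1 : ℝ) ≤ ((a + 1 + N : ℕ) : ℝ) := by
          have : 1 ≤ a + 1 + N := by omega
          exact_mod_cast this
        nlinarith
      have h6 : ((a + N : ℕ) : ℝ) ^ 2 ≤ ((a + 1 + N : ℕ) : ℝ) ^ 2 := by
        have : ((a + N : ℕ) : ℝ) ≤ ((a + 1 + N : ℕ) : ℝ) := by
          have : a + N ≤ a + 1 + N := by omega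
          exact_mod_cast this
        gcongr
      have h7 : (b : ℝ) ^ 2 ≤ (b : ℝ) ^ 2 * ((a + 1 + N : ℕ) : ℝ) ^ 2 := by
        nlinarith [sq_nonneg (b : ℝ)]
      nlinarith
    calc p2 c ((oh 0 ^ N) (Finsupp.single m z)) * ((1 / 4 : ℝ) ^ N / N.factorial)
        ≤ (‖z‖ * 2 ^ N * (a.ascFactorial N) * (1 + 4 * c * (((a + N : ℕ) : ℝ) ^ 2 + (b : ℝ) ^ 2))) *
          ((1 / 4 : ℝ) ^ N / N.factorial) := by gcongr
      _ ≤ (‖z‖ * 2 ^ N * (N.factorial * ((a + 1 + N : ℕ) : ℝ) ^ a) *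
          ((1 + 4 * c * (1 + (b : ℝ) ^ 2)) * ((a + 1 + N : ℕ) : ℝ) ^ 2)) *
          ((1 / 4 : ℝ) ^ N / N.factorial) := by gcongr
      _ = ‖z‖ * (2 ^ N * (1 / 4 : ℝ) ^ N) * (1 + 4 * c * (1 + (b : ℝ) ^ 2)) *
          (((a + 1 + N : ℕ) : ℝ) ^ (a + 2)) := by
          rw [pow_add _ a 2]
          field_simp
      _ = ‖z‖ * (2 ^ (a + 1) * (1 / 2 : ℝ) ^ (a + 1 + N)) * (1 + 4 * c * (1 + (b : ℝ) ^ 2)) *
          (((a + 1 + N : ℕ) : ℝ) ^ (a + 2)) := by
          have key : (2 : ℝ) ^ N * (1 / 4 : ℝ) ^ N = 2 ^ (a + 1) * (1 / 2 : ℝ) ^ (a + 1 + N) := by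
            rw [pow_add _ (a + 1) N, ← mul_assoc, ← mul_pow, ← mul_pow]
            norm_num
          rw [key]
      _ = _ := by ring

/-! ### The Taylor formula -/

/-- The one-parameter group. -/
noncomputable def gam (t : ℝ) : G 2 := fun i =>
  if i = 0 then ⟨!![Real.exp t, 0; 0, Real.exp (-t)], by
    rw [Matrix.det_fin_two_of, ← Real.exp_add]
    simp⟩ else 1

theorem gam_zero_apply (t : ℝ) : gam t 0 = ⟨!![Real.exp t, 0; 0, Real.exp (-t)], by
    rw [Matrix.det_fin_two_of, ← Real.exp_add]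
    simp⟩ := if_pos rfl

theorem gam_one_apply (t : ℝ) : gam t 1 = 1 := if_neg (by decide)

theorem gam_add (s t : ℝ) : gam (s + t) = gam s * gam t := by
  funext i
  fin_cases i
  · change gam (s + t) 0 = gam s 0 * gam t 0
    rw [gam_zero_apply, gam_zero_apply, gam_zero_apply]
    apply Subtype.ext
    change !![Real.exp (s + t), 0; 0, Real.exp (-(s + t))] =
      !![Real.exp s, 0; 0, Real.exp (-s)] * !![Real.exp t, 0; 0, Real.exp (-t)]
    rw [Matrix.mul_fin_two, Real.exp_add, neg_add, Real.exp_add]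
    simp
  · change gam (s + t) 1 = gam s 1 * gam t 1
    rw [gam_one_apply, gam_one_apply, gam_one_apply, one_mul]

/-- The generator. -/
def genY : Fin 2 → Matrix (Fin 2) (Fin 2) ℝ := fun i => if i = 0 then !![1, 0; 0, -1] else 0

theorem gam_der (i a b : Fin 2) : HasDerivAt (fun t => gam t i a b) (genY i a b) 0 := by
  fin_cases i
  · change HasDerivAt (fun t => gam t 0 a b) (genY 0 a b) 0
    have h1 : HasDerivAt (fun t => Real.exp t) 1 0 := by
      simpa using Real.hasDerivAt_exp 0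
    have h2 : HasDerivAt (fun t => Real.exp (-t)) (-1) 0 := by
      have := (Real.hasDerivAt_exp (-0)).comp (0 : ℝ) (hasDerivAt_neg (0 : ℝ))
      simpa [Function.comp_def] using this
    simp only [gam_zero_apply]
    fin_cases a <;> fin_cases b
    · exact h1
    · exact hasDerivAt_const _ _
    · exact hasDerivAt_const _ _
    · exact h2
  · change HasDerivAt (fun t => gam t 1 a b) (genY 1 a b) 0
    simp only [gam_one_apply]
    exact hasDerivAt_const _ _

theorem act_genY (v : V 2) : (D 2).act genY v = oh 0 v := by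
  rw [Ops.act, Fin.sum_univ_two]
  simp [genY, D]

section

variable {E : Type} [NormedAddCommGroup E] [NormedSpace ℂ E]
  {p : V 2 → ℝ} {π : G 2 →* (E →L[ℂ] E)} {j : V 2 →ₗ[ℂ] E}

theorem orbit_deriv (hE : IsGlobalization (D 2) p π j) (v : V 2) (t : ℝ) :
    HasDerivAt (fun t => π (gam t) (j v)) (π (gam t) (j (oh 0 v))) t := by
  have h1 := hE.deriv genY gam gam_add gam_der v
  rw [act_genY] at h1
  have h2 : HasDerivAt (fun s => π (gam t) (π (gam s) (j v))) (π (gam t) (j (oh 0 v))) 0 :=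
    ((π (gam t)).restrictScalars ℝ).hasFDerivAt.comp_hasDerivAt 0 h1
  have h3 : HasDerivAt (fun s => π (gam s) (j v)) (π (gam t) (j (oh 0 v))) (t + 0) := by
    have h4 : (fun s => π (gam t) (π (gam s) (j v))) = fun s => (fun s => π (gam s) (j v)) (t + s) := by
      funext s
      change π (gam t) (π (gam s) (j v)) = π (gam (t + s)) (j v)
      rw [gam_add, map_mul]
      rfl
    rw [h4] at h2
    have h5 := (HasDerivAt.scomp (t + 0) (h := fun u => u - t) (g₁ := fun s => (fun s => π (gam s) (j v)) (t + s))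
      (g₁' := π (gam t) (j (oh 0 v))) (h' := 1) (by simpa using h2) (by
        simpa using (hasDerivAt_id (t + 0)).sub_const t))
    simpa [Function.comp_def] using h5
  simpa using h3

end

end Q4.HC
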