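import Pool.Agent.Q4.HC.SupNorm

/-!
# A multiplier functional which is unbounded for the supremum norm
-/

open Filter Topology ComplexConjugate

namespace Q4.HC

/-- The shift of coefficient families. -/
noncomputable def tau (n : Fin 2 → ℤ) : V 2 →ₗ[ℂ] V 2 := Finsupp.lmapDomain ℂ ℂ fun m => m + n

theorem tau_single (n m : Fin 2 → ℤ) (c : ℂ) :
    tau n (Finsupp.single m c) = Finsupp.single (m + n) c := by
  rw [tau, Finsupp.lmapDomain_apply, Finsupp.mapDomain_single]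

theorem tau_apply (n : Fin 2 → ℤ) (v : V 2) (m : Fin 2 → ℤ) : tau n v m = v (m - n) := by
  have h : Finsupp.lapply m ∘ₗ tau n = (Finsupp.lapply (m - n) : V 2 →ₗ[ℂ] ℂ) := by
    refine Finsupp.lhom_ext fun k c => ?_
    change tau n (Finsupp.single k c) m = (Finsupp.single k c : V 2) (m - n)
    rw [tau_single, Finsupp.single_apply, Finsupp.single_apply]
    have : k + n = m ↔ k = m - n := eq_sub_iff_add_eq.symm
    simp only [this]
  exact LinearMap.congr_fun h v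

theorem jj_tau (n : Fin 2 → ℤ) (v : V 2) (x : X 2) : jj 2 (tau n v) x = chi n x * jj 2 v x := by
  induction v using Finsupp.induction_linear with
  | zero => simp
  | add f g hf hg =>
    simp only [map_add, ContinuousMap.add_apply, hf, hg]
    ring
  | single m c =>
    rw [tau_single, jj_single_apply, jj_single_apply, chi_add, ContinuousMap.mul_apply]
    ring

/-- Averaging with the kernel `(1 + cos) / 2`. -/
noncomputable def cc (n : Fin 2 → ℤ) : V 2 →ₗ[ℂ] V 2 :=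
  (1 / 2 : ℂ) • LinearMap.id + (1 / 4 : ℂ) • tau n + (1 / 4 : ℂ) • tau (-n)

theorem cc_apply (n : Fin 2 → ℤ) (v : V 2) :
    cc n v = (1 / 2 : ℂ) • v + (1 / 4 : ℂ) • tau n v + (1 / 4 : ℂ) • tau (-n) v := rfl

theorem jj_cc (n : Fin 2 → ℤ) (x : X 2) :
    ∃ s : ℝ, 0 ≤ s ∧ s ≤ 1 ∧ ∀ v, jj 2 (cc n v) x = s * jj 2 v x := by
  have hn : ‖chi n x‖ ≤ 1 := by
    have h1 := (chi n).norm_coe_le_norm x
    rwa [UnitAddTorus.mFourier_norm] at h1
  have hre := Complex.abs_re_le_norm (chi n x)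
  have h2 := abs_le.1 (hre.trans hn)
  refine ⟨(1 + (chi n x).re) / 2, by linarith [h2.1], by linarith [h2.2], fun v => ?_⟩
  rw [cc_apply]
  simp only [map_add, map_smul, ContinuousMap.add_apply, ContinuousMap.smul_apply, jj_tau,
    smul_eq_mul]
  have h3 : chi (-n) x = conj (chi n x) := UnitAddTorus.mFourier_neg
  have h4 : chi n x + conj (chi n x) = ((2 * (chi n x).re : ℝ) : ℂ) := Complex.add_conj _
  rw [h3]
  push_cast at h4 ⊢
  linear_combination (1 / 4 * jj 2 v x) * h4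

/-- The sum of the coefficients. -/
noncomputable def tot : V 2 →ₗ[ℂ] ℂ := Finsupp.linearCombination ℂ fun _ => (1 : ℂ)

/-- The multiplier functional. -/
noncomputable def Lam (μ : (Fin 2 → ℤ) → ℝ) : V 2 →ₗ[ℂ] ℂ :=
  Finsupp.linearCombination ℂ fun m => ((μ m : ℝ) : ℂ)

theorem tot_tau (n : Fin 2 → ℤ) (v : V 2) : tot (tau n v) = tot v := by
  have h : tot ∘ₗ tau n = tot := by
    refine Finsupp.lhom_ext fun k c => ?_
    simp [tot, tau_single]
  exact LinearMap.congr_fun h v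

theorem tot_cc (n : Fin 2 → ℤ) (v : V 2) : tot (cc n v) = tot v := by
  rw [cc_apply]
  simp only [map_add, map_smul, tot_tau, smul_eq_mul]
  ring

theorem Lam_single (μ : (Fin 2 → ℤ) → ℝ) (m : Fin 2 → ℤ) (c : ℂ) :
    Lam μ (Finsupp.single m c) = c * μ m := by
  rw [Lam, Finsupp.linearCombination_single, smul_eq_mul]

theorem Lam_tau_tendsto (μ : (Fin 2 → ℤ) → ℝ) (L : ℝ) (n : ℕ → (Fin 2 → ℤ))
    (h : ∀ m, Tendsto (fun k => μ (m + n k)) atTop (𝓝 L)) (v : V 2) :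
    Tendsto (fun k => Lam μ (tau (n k) v)) atTop (𝓝 (L * tot v)) := by
  induction v using Finsupp.induction_linear with
  | zero => simp
  | add f g hf hg =>
    simp only [map_add, mul_add]
    exact hf.add hg
  | single m c =>
    simp only [tau_single, Lam_single]
    have h1 : tot (Finsupp.single m c) = c := by simp [tot]
    rw [h1, mul_comm (L : ℂ)]
    exact (Complex.continuous_ofReal.tendsto _).comp (h m) |>.const_mul c

/-- Non-negative real coefficients. -/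
def NN (v : V 2) : Prop := ∀ m, ∃ c : ℝ, 0 ≤ c ∧ v m = c

theorem NN_cc {v : V 2} (h : NN v) (n : Fin 2 → ℤ) : NN (cc n v) := by
  intro m
  obtain ⟨a, ha, ha'⟩ := h m
  obtain ⟨b, hb, hb'⟩ := h (m - n)
  obtain ⟨c, hc, hc'⟩ := h (m - -n)
  refine ⟨1 / 2 * a + 1 / 4 * b + 1 / 4 * c, by positivity, ?_⟩
  rw [cc_apply]
  simp only [Finsupp.add_apply, Finsupp.smul_apply, tau_apply, smul_eq_mul, ha', hb', hc']
  push_cast
  ring

theorem Lam_nonneg {μ : (Fin 2 → ℤ) → ℝ} (hμ : ∀ m, 0 ≤ μ m) {v : V 2} (h : NN v) :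
    0 ≤ (Lam μ v).re := by
  rw [Lam, Finsupp.linearCombination_apply, Finsupp.sum, Complex.re_sum]
  refine Finset.sum_nonneg fun m _ => ?_
  obtain ⟨a, ha, ha'⟩ := h m
  rw [ha', smul_eq_mul, ← Complex.ofReal_mul, Complex.ofReal_re]
  exact mul_nonneg ha (hμ m)

theorem riesz_step (μ : (Fin 2 → ℤ) → ℝ) (hμ : ∀ m, 0 ≤ μ m) (L : ℝ) (hL : 0 < L)
    (n₀ n₁ : ℕ → (Fin 2 → ℤ))
    (h0 : ∀ m, Tendsto (fun k => μ (m + n₀ k)) atTop (𝓝 L))
    (h0' : ∀ m, Tendsto (fun k => μ (m + -n₀ k)) atTop (𝓝 L))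
    (h1 : ∀ m, Tendsto (fun k => μ (m + n₁ k)) atTop (𝓝 0))
    (h1' : ∀ m, Tendsto (fun k => μ (m + -n₁ k)) atTop (𝓝 0)) (N : ℕ) :
    ∃ w b : V 2, (∀ x, ∃ ρ σ : ℝ, jj 2 w x = ρ ∧ jj 2 b x = σ ∧ 0 ≤ ρ ∧ 0 ≤ σ ∧ ρ + σ ≤ 1) ∧
      tot b = 1 ∧ NN b ∧ N * (L / 8) ≤ (Lam μ w).re := by
  induction N with
  | zero =>
    refine ⟨0, Finsupp.single 0 1, fun x => ⟨0, 1, ?_, ?_, le_rfl, zero_le_one, ?_⟩, ?_, ?_, ?_⟩
    · simp
    · rw [jj_single_apply, chi_zero]
      simp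
    · norm_num
    · simp [tot]
    · intro m
      rw [Finsupp.single_apply]
      split_ifs
      · exact ⟨1, zero_le_one, by simp⟩
      · exact ⟨0, le_rfl, by simp⟩
    · simp
  | succ N ih =>
    obtain ⟨w, b, hx, htot, hNN, hLam⟩ := ih
    -- the first averaging
    have hlim0 : Tendsto (fun k => (Lam μ (cc (n₀ k) b)).re) atTop
        (𝓝 (1 / 2 * (Lam μ b).re + 1 / 2 * L)) := by
      have e1 : Tendsto (fun k => Lam μ (cc (n₀ k) b)) atTop
          (𝓝 ((1 / 2 : ℂ) * Lam μ b + (1 / 4 : ℂ) * (L * tot b) + (1 / 4 : ℂ) * (L * tot b))) := by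
        simp only [cc_apply, map_add, map_smul, smul_eq_mul]
        exact (tendsto_const_nhds.add ((Lam_tau_tendsto μ L n₀ h0 b).const_mul _)).add
          ((Lam_tau_tendsto μ L (fun k => -n₀ k) h0' b).const_mul _)
      have e2 := (Complex.continuous_re.tendsto _).comp e1
      rw [htot] at e2
      convert! e2 using 2
      simp
      ring
    have hb0 := Lam_nonneg hμ hNN
    obtain ⟨k, hk⟩ := (hlim0.eventually (eventually_gt_nhds
      (show 3 / 8 * L < 1 / 2 * (Lam μ b).re + 1 / 2 * L by linarith))).exists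
    set a : V 2 := cc (n₀ k) b with ha
    have hlim1 : Tendsto (fun k => (Lam μ (cc (n₁ k) a)).re) atTop
        (𝓝 (1 / 2 * (Lam μ a).re)) := by
      have e1 : Tendsto (fun k => Lam μ (cc (n₁ k) a)) atTop
          (𝓝 ((1 / 2 : ℂ) * Lam μ a + (1 / 4 : ℂ) * ((0 : ℝ) * tot a) +
            (1 / 4 : ℂ) * ((0 : ℝ) * tot a))) := by
        simp only [cc_apply, map_add, map_smul, smul_eq_mul]
        exact (tendsto_const_nhds.add ((Lam_tau_tendsto μ 0 n₁ h1 a).const_mul _)).add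
          ((Lam_tau_tendsto μ 0 (fun k => -n₁ k) h1' a).const_mul _)
      have e2 := (Complex.continuous_re.tendsto _).comp e1
      convert! e2 using 2
      simp
    obtain ⟨l, hl⟩ := (hlim1.eventually (eventually_lt_nhds
      (show 1 / 2 * (Lam μ a).re < (Lam μ a).re - L / 8 by linarith))).exists
    refine ⟨w + a - cc (n₁ l) a, cc (n₁ l) a, fun x => ?_, ?_, ?_, ?_⟩
    · obtain ⟨ρ, σ, hρ, hσ, hρ0, hσ0, hsum⟩ := hx x
      obtain ⟨s, hs0, hs1, hs⟩ := jj_cc (n₀ k) x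
      obtain ⟨t, ht0, ht1, ht⟩ := jj_cc (n₁ l) x
      have hax : jj 2 a x = ((s * σ : ℝ) : ℂ) := by rw [ha, hs, hσ]; push_cast; ring
      refine ⟨ρ + s * σ - t * (s * σ), t * (s * σ), ?_, ?_, ?_, by positivity, ?_⟩
      · simp only [map_add, map_sub, ContinuousMap.add_apply, ContinuousMap.sub_apply, hρ, ht, hax]
        push_cast
        ring
      · rw [ht, hax]
        push_cast
        ring
      · have : 0 ≤ s * σ := by positivity
        nlinarith
      · nlinarith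
    · rw [tot_cc, ha, tot_cc, htot]
    · exact NN_cc (NN_cc hNN _) _
    · simp only [map_add, map_sub, Complex.add_re, Complex.sub_re]
      push_cast
      linarith

theorem riesz (μ : (Fin 2 → ℤ) → ℝ) (hμ : ∀ m, 0 ≤ μ m) (L : ℝ) (hL : 0 < L)
    (n₀ n₁ : ℕ → (Fin 2 → ℤ))
    (h0 : ∀ m, Tendsto (fun k => μ (m + n₀ k)) atTop (𝓝 L))
    (h0' : ∀ m, Tendsto (fun k => μ (m + -n₀ k)) atTop (𝓝 L))
    (h1 : ∀ m, Tendsto (fun k => μ (m + n₁ k)) atTop (𝓝 0))
    (h1' : ∀ m, Tendsto (fun k => μ (m + -n₁ k)) atTop (𝓝 0)) :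
    ¬ ∃ C : ℝ, ∀ w : V 2, ‖Lam μ w‖ ≤ C * ‖jj 2 w‖ := by
  rintro ⟨C, hC⟩
  have hC' : ∀ N : ℕ, N * (L / 8) ≤ |C| := by
    intro N
    obtain ⟨w, b, hx, _, _, hLam⟩ := riesz_step μ hμ L hL n₀ n₁ h0 h0' h1 h1' N
    have h2 : ‖jj 2 w‖ ≤ 1 := by
      refine (ContinuousMap.norm_le _ zero_le_one).2 fun x => ?_
      obtain ⟨ρ, σ, hρ, _, hρ0, hσ0, hsum⟩ := hx x
      rw [hρ, Complex.norm_real, Real.norm_of_nonneg hρ0]
      linarith
    calc N * (L / 8) ≤ (Lam μ w).re := hLam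
      _ ≤ ‖Lam μ w‖ := Complex.re_le_norm _
      _ ≤ C * ‖jj 2 w‖ := hC w
      _ ≤ |C| * ‖jj 2 w‖ := by gcongr; exact le_abs_self C
      _ ≤ |C| * 1 := by gcongr
      _ = |C| := mul_one _
  obtain ⟨N, hN⟩ := exists_nat_gt (|C| / (L / 8))
  rw [div_lt_iff₀ (by positivity)] at hN
  linarith [hC' N]

end Q4.HC
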