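import Pool.Agent.Q4.HC.Module

/-!
# The supremum norm is `G`-continuous
-/

open Filter Topology ComplexConjugate

namespace Q4.HC

variable {r : ℕ}

open MeasureTheory in
/-- The measure on `ℝ / ℤ` used in Mathlib for Fourier series on tori. -/
noncomputable local instance instMS : MeasureSpace UnitAddCircle := ⟨AddCircle.haarAddCircle⟩

open MeasureTheory in
local instance instHaar : Measure.IsAddHaarMeasure (volume : Measure UnitAddCircle) :=
  inferInstanceAs (Measure.IsAddHaarMeasure AddCircle.haarAddCircle)

open MeasureTheory in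
local instance instProb : IsProbabilityMeasure (volume : Measure UnitAddCircle) :=
  inferInstanceAs (IsProbabilityMeasure AddCircle.haarAddCircle)

/-- The embedding as trigonometric polynomials. -/
noncomputable def jj (r : ℕ) : V r →ₗ[ℂ] C(X r, ℂ) := Finsupp.linearCombination ℂ chi

theorem jj_single (m : Fin r → ℤ) (c : ℂ) : jj r (Finsupp.single m c) = c • chi m :=
  Finsupp.linearCombination_single _ _ _

theorem jj_single_apply (m : Fin r → ℤ) (c : ℂ) (x : X r) :
    jj r (Finsupp.single m c) x = c * chi m x := by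
  rw [jj_single]
  rfl

theorem jj_inj : Function.Injective (jj r) := by
  have h1 : LinearIndependent ℂ (chi : (Fin r → ℤ) → C(X r, ℂ)) := by
    have h2 := (UnitAddTorus.orthonormal_mFourier (d := Fin r)).linearIndependent
    exact LinearIndependent.of_comp
      (ContinuousMap.toLp (E := ℂ) 2 (MeasureTheory.volume : MeasureTheory.Measure (X r))
        ℂ).toLinearMap h2
  exact h1

theorem jj_dense : DenseRange (jj r) := by
  have h1 := UnitAddTorus.span_mFourier_closure_eq_top (d := Fin r)
  have h2 : Set.range (jj r) = (Submodule.span ℂ (Set.range (chi : (Fin r → ℤ) → C(X r, ℂ))) :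
      Set C(X r, ℂ)) := by
    rw [← Finsupp.range_linearCombination]
    rfl
  rw [DenseRange, h2, dense_iff_closure_eq, ← Submodule.topologicalClosure_coe, h1]
  rfl

theorem jj_act (Y : Fin r → Matrix (Fin 2) (Fin 2) ℝ) (m : Fin r → ℤ) (c : ℂ) :
    jj r ((D r).act Y (Finsupp.single m c)) = c • (chi m * Om Y m) := by
  have hU : ∀ (i : Fin r) (x : X r), chi (m + Pi.single i 1) x = chi m x * U i x := by
    intro i x
    rw [chi_add]
    rfl
  have hU' : ∀ (i : Fin r) (x : X r), chi (m + Pi.single i (-1)) x = chi m x * conj (U i x) := by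
    intro i x
    have : (Pi.single i (-1) : Fin r → ℤ) = -Pi.single i 1 := by
      rw [← Pi.single_neg]
    rw [chi_add, this, chi_neg]
    rfl
  have hU0 : ∀ (i : Fin r) (x : X r), chi (m + Pi.single i 0) x = chi m x := by
    intro i x
    rw [Pi.single_zero, add_zero]
  ext x
  have hl : jj r ((D r).act Y (Finsupp.single m c)) x =
      ∑ i, ((Y i 0 0 : ℂ) * (c * m i * (chi m x * U i x) - c * m i * (chi m x * conj (U i x))) +
        (Y i 0 1 : ℂ) * (Complex.I * (c * m i * chi m x - 1 / 2 * (c * m i * (chi m x * conj (U i x))) -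
          1 / 2 * (c * m i * (chi m x * U i x)))) +
        (Y i 1 0 : ℂ) * (Complex.I * (-(c * m i * chi m x) - 1 / 2 * (c * m i * (chi m x *
          conj (U i x))) - 1 / 2 * (c * m i * (chi m x * U i x))))) := by
    rw [Ops.act, map_sum, ContinuousMap.sum_apply]
    refine Finset.sum_congr rfl fun i _ => ?_
    simp only [D, oh_apply, oe_apply, of_apply, map_add, map_sub, map_smul, map_neg, TT_single,
      ContinuousMap.add_apply, ContinuousMap.sub_apply, ContinuousMap.smul_apply,
      ContinuousMap.neg_apply, jj_single_apply, hU, hU', hU0, smul_eq_mul]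
  have hr : (c • (chi m * Om Y m)) x = ∑ i, c * (chi m x * ((m i : ℂ) *
      (-(((Y i 1 0 - Y i 0 1 : ℝ) : ℂ) * Complex.I) -
      ((Y i 0 0 : ℂ) + ((Y i 1 0 + Y i 0 1 : ℝ) : ℂ) * Complex.I / 2) * conj (U i x) +
      ((Y i 0 0 : ℂ) - ((Y i 1 0 + Y i 0 1 : ℝ) : ℂ) * Complex.I / 2) * U i x))) := by
    rw [← Finset.mul_sum, ← Finset.mul_sum]
    change c * (chi m x * (Om Y m) x) = _
    rw [Om, ContinuousMap.sum_apply]
    rfl
  rw [hl, hr]
  refine Finset.sum_congr rfl fun i _ => ?_
  push_cast
  ring

theorem rep_deriv {Y : Fin r → Matrix (Fin 2) (Fin 2) ℝ} {γ : ℝ → G r} (h : Curve Y γ)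
    (v : V r) : HasDerivAt (fun t => rep r (γ t) (jj r v)) (jj r ((D r).act Y v)) 0 := by
  induction v using Finsupp.induction_linear with
  | zero =>
    have h1 : (D r).act Y 0 = 0 := by
      rw [Ops.act]
      simp [D]
    rw [h1, map_zero]
    simp only [map_zero]
    exact hasDerivAt_const _ _
  | add f g hf hg =>
    have h1 : (D r).act Y (f + g) = (D r).act Y f + (D r).act Y g := by
      rw [Ops.act, Ops.act, Ops.act, ← Finset.sum_add_distrib]
      refine Finset.sum_congr rfl fun i _ => ?_
      simp only [D, map_add, smul_add]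
      abel
    rw [h1, map_add]
    have h2 := hf.fun_add hg
    rw [← map_add (jj r) ((D r).act Y f)] at h2
    simp only [map_add] at h2 ⊢
    exact h2
  | single m c =>
    rw [jj_act]
    refine ((hasDerivAt_chi h m).const_smul c).congr_of_eventuallyEq
      (Eventually.of_forall fun t => ?_)
    simp only [jj_single, map_smul, Pi.smul_apply]

theorem sup_globalization : IsGlobalization (D r) (fun v => ‖jj r v‖) (rep r) (jj r) where
  inj := jj_inj
  norm_eq _ := rfl
  dense := jj_dense
  cont := continuous_rep
  deriv _ _ h1 h2 v := rep_deriv (Curve.of_hom h1 h2) v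

theorem sup_gcontinuous : IsGContinuous (D r) (fun v => ‖jj r v‖) :=
  ⟨C(X r, ℂ), inferInstance, inferInstance, inferInstance, rep r, jj r, sup_globalization⟩

end Q4.HC
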