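import Pool.Agent.Q4.HC.Torus

/-!
# Derivatives of the orbit maps of the monomials
-/

open Filter Topology ComplexConjugate

namespace Q4.HC

theorem hasDerivAt_mul_of_zero {B : Type*} [NormedRing B] [NormedAlgebra ℝ B] {c W : ℝ → B}
    {w : B} (hc : ContinuousAt c 0) (hW : HasDerivAt W w 0) (h0 : W 0 = 0) :
    HasDerivAt (fun t => c t * W t) (c 0 * w) 0 := by
  rw [hasDerivAt_iff_tendsto_slope] at hW ⊢
  have h1 : Tendsto c (𝓝[≠] 0) (𝓝 (c 0)) := hc.tendsto.mono_left nhdsWithin_le_nhds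
  refine (h1.mul hW).congr fun t => ?_
  simp only [slope, vsub_eq_sub, h0, mul_zero, sub_zero, mul_smul_comm]

variable {r : ℕ}

/-- A curve in `G` through `1` with tangent vector `X`. -/
structure Curve (Y : Fin r → Matrix (Fin 2) (Fin 2) ℝ) (γ : ℝ → G r) : Prop where
  one : γ 0 = 1
  der : ∀ i a b, HasDerivAt (fun t => γ t i a b) (Y i a b) 0

theorem Curve.of_hom {Y : Fin r → Matrix (Fin 2) (Fin 2) ℝ} {γ : ℝ → G r}
    (h1 : ∀ s t, γ (s + t) = γ s * γ t) (h2 : ∀ i a b, HasDerivAt (fun t => γ t i a b) (Y i a b) 0) :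
    Curve Y γ := by
  refine ⟨?_, h2⟩
  have := h1 0 0
  rw [add_zero] at this
  exact (mul_eq_left.1 this.symm)

namespace Curve

variable {Y : Fin r → Matrix (Fin 2) (Fin 2) ℝ} {γ : ℝ → G r}

theorem trace (h : Curve Y γ) (i : Fin r) : Y i 1 1 = -Y i 0 0 := by
  have h1 : HasDerivAt (fun t => γ t i 0 0 * γ t i 1 1 - γ t i 0 1 * γ t i 1 0)
      ((Y i 0 0 * γ 0 i 1 1 + γ 0 i 0 0 * Y i 1 1) -
        (Y i 0 1 * γ 0 i 1 0 + γ 0 i 0 1 * Y i 1 0)) 0 :=
    ((h.der i 0 0).fun_mul (h.der i 1 1)).fun_sub ((h.der i 0 1).fun_mul (h.der i 1 0))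
  have h2 : (fun t => γ t i 0 0 * γ t i 1 1 - γ t i 0 1 * γ t i 1 0) = fun _ => (1 : ℝ) := by
    funext t
    exact det_SL (γ t i)
  rw [h2] at h1
  have h3 := h1.unique (hasDerivAt_const _ _)
  rw [h.one] at h3
  simp at h3
  linarith

theorem al_der (h : Curve Y γ) (i : Fin r) : HasDerivAt (fun t => al (γ t i))
    (((Y i 1 0 - Y i 0 1 : ℝ) : ℂ) * Complex.I / 2) 0 := by
  unfold al
  have h1 := ((h.der i 0 0).fun_add (h.der i 1 1)).ofReal_comp
  have h2 := (((h.der i 1 0).fun_sub (h.der i 0 1)).ofReal_comp).mul_const Complex.I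
  refine ((h1.fun_add h2).div_const 2).congr_deriv ?_
  rw [h.trace i]
  simp

theorem be_der (h : Curve Y γ) (i : Fin r) : HasDerivAt (fun t => be (γ t i))
    ((Y i 0 0 : ℂ) + ((Y i 1 0 + Y i 0 1 : ℝ) : ℂ) * Complex.I / 2) 0 := by
  unfold be
  have h1 := ((h.der i 0 0).fun_sub (h.der i 1 1)).ofReal_comp
  have h2 := (((h.der i 1 0).fun_add (h.der i 0 1)).ofReal_comp).mul_const Complex.I
  refine ((h1.fun_add h2).div_const 2).congr_deriv ?_
  rw [h.trace i]
  push_cast
  ring

end Curve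

/-- The logarithmic derivative of the `i`-th coordinate function. -/
noncomputable def om (Y : Fin r → Matrix (Fin 2) (Fin 2) ℝ) (i : Fin r) : C(X r, ℂ) :=
  algebraMap ℂ _ (-(((Y i 1 0 - Y i 0 1 : ℝ) : ℂ) * Complex.I)) -
    algebraMap ℂ _ ((Y i 0 0 : ℂ) + ((Y i 1 0 + Y i 0 1 : ℝ) : ℂ) * Complex.I / 2) * star (U i) +
    algebraMap ℂ _ ((Y i 0 0 : ℂ) - ((Y i 1 0 + Y i 0 1 : ℝ) : ℂ) * Complex.I / 2) * U i

theorem star_om (Y : Fin r → Matrix (Fin 2) (Fin 2) ℝ) (i : Fin r) : star (om Y i) = -om Y i := by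
  ext x
  change conj (-(((Y i 1 0 - Y i 0 1 : ℝ) : ℂ) * Complex.I) -
    ((Y i 0 0 : ℂ) + ((Y i 1 0 + Y i 0 1 : ℝ) : ℂ) * Complex.I / 2) * conj (U i x) +
    ((Y i 0 0 : ℂ) - ((Y i 1 0 + Y i 0 1 : ℝ) : ℂ) * Complex.I / 2) * U i x) =
    -(-(((Y i 1 0 - Y i 0 1 : ℝ) : ℂ) * Complex.I) -
    ((Y i 0 0 : ℂ) + ((Y i 1 0 + Y i 0 1 : ℝ) : ℂ) * Complex.I / 2) * conj (U i x) +
    ((Y i 0 0 : ℂ) - ((Y i 1 0 + Y i 0 1 : ℝ) : ℂ) * Complex.I / 2) * U i x)
  simp only [map_add, map_sub, map_neg, map_mul, map_div₀, Complex.conj_ofReal, Complex.conj_I,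
    Complex.conj_conj, map_ofNat]
  ring

theorem Curve.continuousAt {Y : Fin r → Matrix (Fin 2) (Fin 2) ℝ} {γ : ℝ → G r}
    (h : Curve Y γ) : ContinuousAt γ 0 := by
  refine continuousAt_pi.2 fun i => ?_
  refine Topology.IsInducing.subtypeVal.continuousAt_iff.2 ?_
  refine continuousAt_pi.2 fun a => continuousAt_pi.2 fun b => ?_
  exact (h.der i a b).continuousAt

theorem hasDerivAt_U {Y : Fin r → Matrix (Fin 2) (Fin 2) ℝ} {γ : ℝ → G r} (h : Curve Y γ)
    (i : Fin r) : HasDerivAt (fun t => rep r (γ t) (U i)) (U i * om Y i) 0 := by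
  have hc : ContinuousAt (fun t => rep r (γ t) (U i)) 0 :=
    ((continuous_rep (U i)).continuousAt (x := γ 0)).comp h.continuousAt
  have hal := h.al_der i
  have hbe := h.be_der i
  have hal' := hal.star
  have hbe' := hbe.star
  let J : ℂ →L[ℝ] C(X r, ℂ) := (Algebra.linearMap ℂ C(X r, ℂ)).toContinuousLinearMap.restrictScalars ℝ
  have hJ : ∀ z, J z = algebraMap ℂ _ z := fun z => rfl
  have halJ := J.hasFDerivAt.comp_hasDerivAt (0 : ℝ) hal
  have hbeJ := J.hasFDerivAt.comp_hasDerivAt (0 : ℝ) hbe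
  have halJ' := J.hasFDerivAt.comp_hasDerivAt (0 : ℝ) hal'
  have hbeJ' := J.hasFDerivAt.comp_hasDerivAt (0 : ℝ) hbe'
  simp only [Function.comp_def, hJ] at halJ hbeJ halJ' hbeJ'
  set A : ℂ := ((Y i 1 0 - Y i 0 1 : ℝ) : ℂ) * Complex.I / 2 with hA
  set B : ℂ := (Y i 0 0 : ℂ) + ((Y i 1 0 + Y i 0 1 : ℝ) : ℂ) * Complex.I / 2 with hB
  -- the factor vanishing at zero
  let W : ℝ → C(X r, ℂ) := fun t => 1 - (algebraMap ℂ _ (al (γ t i)) -
    algebraMap ℂ _ (conj (be (γ t i))) * U i)
  have hW : HasDerivAt W (-(algebraMap ℂ _ A - algebraMap ℂ _ (conj B) * U i)) 0 :=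
    ((halJ.fun_sub (hbeJ'.mul_const (U i))).const_sub 1)
  have hW0 : W 0 = 0 := by
    simp only [W, h.one, Pi.one_apply, al_one, be_one, map_one, map_zero, zero_mul, sub_zero,
      sub_self]
  have hprod := hasDerivAt_mul_of_zero hc hW hW0
  have hrest : HasDerivAt (fun t => algebraMap ℂ C(X r, ℂ) (conj (al (γ t i))) * U i -
      algebraMap ℂ _ (be (γ t i))) (algebraMap ℂ _ (conj A) * U i - algebraMap ℂ _ B) 0 :=
    (halJ'.mul_const (U i)).fun_sub hbeJ
  have hsum := hprod.fun_add hrest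
  have hfun : (fun t => rep r (γ t) (U i) * W t + (algebraMap ℂ C(X r, ℂ) (conj (al (γ t i))) * U i -
      algebraMap ℂ _ (be (γ t i)))) = fun t => rep r (γ t) (U i) := by
    funext t
    rw [← rep_U]
    simp only [W]
    ring
  rw [hfun] at hsum
  refine hsum.congr_deriv ?_
  have hγ0 : rep r (γ 0) (U i) = U i := by rw [h.one, map_one]; rfl
  rw [hγ0, om, ← hB]
  have hconjA : conj A = -A := by
    rw [hA]
    simp only [map_div₀, map_mul, Complex.conj_ofReal, Complex.conj_I, map_ofNat]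
    ring
  have hconjB : conj B = (Y i 0 0 : ℂ) - ((Y i 1 0 + Y i 0 1 : ℝ) : ℂ) * Complex.I / 2 := by
    rw [hB]
    simp only [map_add, map_div₀, map_mul, Complex.conj_ofReal, Complex.conj_I, map_ofNat]
    ring
  have hAA : -(((Y i 1 0 - Y i 0 1 : ℝ) : ℂ) * Complex.I) = -A - A := by
    rw [hA]
    ring
  rw [hconjA, hAA, ← hconjB, map_sub, map_neg]
  linear_combination (algebraMap ℂ C(X r, ℂ) B) * U_star i

/-- The monomials. -/
noncomputable abbrev chi (m : Fin r → ℤ) : C(X r, ℂ) := UnitAddTorus.mFourier m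

theorem chi_add (m n : Fin r → ℤ) : chi (m + n) = chi m * chi n := by
  ext x
  exact UnitAddTorus.mFourier_add

theorem chi_neg (m : Fin r → ℤ) : chi (-m) = star (chi m) := by
  ext x
  exact UnitAddTorus.mFourier_neg

theorem chi_zero : chi (0 : Fin r → ℤ) = 1 := UnitAddTorus.mFourier_zero

/-- The logarithmic derivative of a monomial. -/
noncomputable def Om (Y : Fin r → Matrix (Fin 2) (Fin 2) ℝ) (m : Fin r → ℤ) : C(X r, ℂ) :=
  ∑ i, algebraMap ℂ C(X r, ℂ) (m i : ℂ) * om Y i

theorem hasDerivAt_chi {Y : Fin r → Matrix (Fin 2) (Fin 2) ℝ} {γ : ℝ → G r} (h : Curve Y γ)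
    (m : Fin r → ℤ) : HasDerivAt (fun t => rep r (γ t) (chi m)) (chi m * Om Y m) 0 := by
  classical
  let S : AddSubgroup (Fin r → ℤ) :=
    { carrier := {m | HasDerivAt (fun t => rep r (γ t) (chi m)) (chi m * Om Y m) 0}
      zero_mem' := by
        change HasDerivAt (fun t => rep r (γ t) (chi 0)) (chi 0 * Om Y 0) 0
        have : Om Y (0 : Fin r → ℤ) = 0 := by simp [Om]
        have h1 : (fun t => rep r (γ t) (chi 0)) = fun _ => (1 : C(X r, ℂ)) := by
          funext t
          rw [chi_zero]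
          rfl
        rw [this, mul_zero, h1]
        exact hasDerivAt_const _ _
      add_mem' := by
        intro a b ha hb
        change HasDerivAt (fun t => rep r (γ t) (chi (a + b))) (chi (a + b) * Om Y (a + b)) 0
        have h1 := ha.fun_mul hb
        have h2 : (fun t => rep r (γ t) (chi a) * rep r (γ t) (chi b)) =
            fun t => rep r (γ t) (chi (a + b)) := by
          funext t
          rw [chi_add]
          rfl
        rw [h2] at h1
        refine h1.congr_deriv ?_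
        have h3 : Om Y (a + b) = Om Y a + Om Y b := by
          simp only [Om, Pi.add_apply, Int.cast_add, map_add, add_mul, Finset.sum_add_distrib]
        rw [h3, chi_add, h.one, map_one]
        simp only [one_apply_eq_self]
        ring
      neg_mem' := by
        intro a ha
        change HasDerivAt (fun t => rep r (γ t) (chi (-a))) (chi (-a) * Om Y (-a)) 0
        have h1 : HasDerivAt (fun t => star (rep r (γ t) (chi a))) (star (chi a * Om Y a)) 0 :=
          HasDerivAt.star ha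
        have h2 : (fun t => star (rep r (γ t) (chi a))) = fun t => rep r (γ t) (chi (-a)) := by
          funext t
          rw [chi_neg]
          rfl
        rw [h2] at h1
        refine h1.congr_deriv ?_
        have h3 : Om Y (-a) = star (Om Y a) := by
          rw [Om, Om, star_sum]
          refine Finset.sum_congr rfl fun i _ => ?_
          rw [star_mul, star_om, ← algebraMap_star_comm, Pi.neg_apply, Int.cast_neg, map_neg]
          have : star (a i : ℂ) = (a i : ℂ) := by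
            simp
          rw [this]
          ring
        rw [h3, chi_neg, star_mul, mul_comm] }
  have hS : ∀ i, (Pi.single i 1 : Fin r → ℤ) ∈ S := by
    intro i
    change HasDerivAt (fun t => rep r (γ t) (chi (Pi.single i 1)))
      (chi (Pi.single i 1) * Om Y (Pi.single i 1)) 0
    have h1 := hasDerivAt_U h i
    have h2 : Om Y (Pi.single i 1) = om Y i := by
      rw [Om, Finset.sum_eq_single i]
      · simp
      · intro j _ hj
        rw [Pi.single_eq_of_ne hj]
        simp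
      · intro hi
        exact absurd (Finset.mem_univ i) hi
    rw [h2]
    exact h1
  have hm : m = ∑ i, m i • (Pi.single i 1 : Fin r → ℤ) := by
    funext j
    simp [Finset.sum_apply, Pi.single_apply]
  have hmS : m ∈ S := by
    rw [hm]
    exact S.sum_mem fun i _ => S.zsmul_mem (hS i) _
  exact hmS

end Q4.HC
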