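import Pool.Agent.Q4.HC.Mob

/-!
# The representation on continuous functions on the torus
-/

open Filter Topology ComplexConjugate

namespace Q4.HC

variable {r : ℕ}

/-- The torus. -/
abbrev X (r : ℕ) : Type := UnitAddTorus (Fin r)

/-- The action on the torus. -/
noncomputable def actX (g : G r) (x : X r) : X r := fun i => act1 (g i) (x i)

theorem actX_mul (g h : G r) (x : X r) : actX (g * h) x = actX g (actX h x) := by
  funext i
  exact act1_mul _ _ _

theorem actX_one (x : X r) : actX 1 x = x := by
  funext i
  exact act1_one _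

theorem continuous_actX : Continuous fun p : G r × X r => actX p.1 p.2 := by
  refine continuous_pi fun i => ?_
  have h0 : Continuous fun p : G r × X r => p.1 i :=
    (continuous_apply (A := fun _ : Fin r => SL) i).comp continuous_fst
  have h0' : Continuous fun p : G r × X r => p.2 i :=
    (continuous_apply (A := fun _ : Fin r => UnitAddCircle) i).comp continuous_snd
  have h1 : Continuous fun p : G r × X r => (p.1 i, p.2 i) := h0.prodMk h0'
  have h2 : Continuous ((fun q : SL × UnitAddCircle => act1 q.1 q.2) ∘
      fun p : G r × X r => (p.1 i, p.2 i)) := Continuous.comp continuous_act1 h1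
  exact h2

theorem continuous_actX_right (g : G r) : Continuous (actX g) :=
  Continuous.comp (g := fun p : G r × X r => actX p.1 p.2) (f := fun x => (g, x))
    continuous_actX (continuous_const.prodMk continuous_id)

/-- The action map as a continuous map. -/
noncomputable def actC (g : G r) : C(X r, X r) := ⟨actX g, continuous_actX_right g⟩

/-- The representation on `C(X)`. -/
noncomputable def pi0 (g : G r) : C(X r, ℂ) →L[ℂ] C(X r, ℂ) :=
  LinearMap.mkContinuous
    { toFun := fun f => f.comp (actC g⁻¹)
      map_add' := fun _ _ => rfl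
      map_smul' := fun _ _ => rfl } 1 (fun f => by
        rw [one_mul]
        refine (ContinuousMap.norm_le _ (norm_nonneg _)).2 fun x => ?_
        exact f.norm_coe_le_norm _)

theorem pi0_apply (g : G r) (f : C(X r, ℂ)) (x : X r) : pi0 g f x = f (actX g⁻¹ x) := rfl

/-- The representation on `C(X)`. -/
noncomputable def rep (r : ℕ) : G r →* (C(X r, ℂ) →L[ℂ] C(X r, ℂ)) where
  toFun := pi0
  map_one' := by
    ext f x
    rw [pi0_apply, inv_one, actX_one]
    rfl
  map_mul' g h := by
    ext f x
    change f (actX (g * h)⁻¹ x) = f (actX h⁻¹ (actX g⁻¹ x))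
    rw [mul_inv_rev, actX_mul]

theorem rep_apply (g : G r) (f : C(X r, ℂ)) (x : X r) : rep r g f x = f (actX g⁻¹ x) := rfl

theorem rep_mul (g : G r) (f₁ f₂ : C(X r, ℂ)) : rep r g (f₁ * f₂) = rep r g f₁ * rep r g f₂ := rfl

theorem rep_one (g : G r) : rep r g (1 : C(X r, ℂ)) = 1 := rfl

theorem rep_star (g : G r) (f : C(X r, ℂ)) : rep r g (star f) = star (rep r g f) := rfl

theorem norm_rep_le (g : G r) (f : C(X r, ℂ)) : ‖rep r g f‖ ≤ ‖f‖ :=
  (ContinuousMap.norm_le _ (norm_nonneg _)).2 fun _ => f.norm_coe_le_norm _

theorem continuous_rep (f : C(X r, ℂ)) : Continuous fun g => rep r g f := by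
  refine ContinuousMap.continuous_of_continuous_uncurry _ ?_
  have h1 : Continuous fun p : G r × X r => (p.1⁻¹, p.2) :=
    (continuous_fst.inv).prodMk continuous_snd
  have h2 : Continuous ((fun p : G r × X r => actX p.1 p.2) ∘
      fun p : G r × X r => (p.1⁻¹, p.2)) := Continuous.comp continuous_actX h1
  have h3 : Continuous (f ∘ ((fun p : G r × X r => actX p.1 p.2) ∘
      fun p : G r × X r => (p.1⁻¹, p.2))) := Continuous.comp f.continuous h2
  exact h3

/-- The coordinate functions. -/
noncomputable def U (i : Fin r) : C(X r, ℂ) := UnitAddTorus.mFourier (Pi.single i 1)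

theorem U_apply (i : Fin r) (x : X r) : U i x = zz (x i) := by
  rw [U, UnitAddTorus.mFourier_single, fourier_one]
  rfl

theorem U_star (i : Fin r) : U i * star (U i) = 1 := by
  ext x
  change U i x * conj (U i x) = 1
  rw [U_apply, zz_mul_conj]

theorem rep_U (g : G r) (i : Fin r) :
    rep r g (U i) * (algebraMap ℂ _ (al (g i)) - algebraMap ℂ _ (conj (be (g i))) * U i) =
      algebraMap ℂ _ (conj (al (g i))) * U i - algebraMap ℂ _ (be (g i)) := by
  ext x
  change rep r g (U i) x * (al (g i) - conj (be (g i)) * U i x) = conj (al (g i)) * U i x - be (g i)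
  rw [rep_apply, U_apply, U_apply]
  change zz (act1 (g i)⁻¹ (x i)) * _ = _
  rw [zz_act1]
  have h1 := den_ne (g i)⁻¹ (zz_mul_conj (x i))
  have h2 : num (g i)⁻¹ (zz (x i)) = conj (al (g i)) * zz (x i) - be (g i) := by
    rw [num, al_inv, be_inv]
    ring
  have h3 : den (g i)⁻¹ (zz (x i)) = al (g i) - conj (be (g i)) * zz (x i) := by
    rw [den, al_inv, be_inv, Complex.conj_conj, map_neg]
    ring
  rw [h3] at h1
  rw [h2, h3]
  exact div_mul_cancel₀ _ h1

end Q4.HC
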